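import Pool.Agent.H112R2.Lattice
set_option autoImplicit false

/-! Module D3/D4: covering, shrinking the radius, large finite subgroups. -/

namespace H112

open Finset

variable {G : Type*} [AddCommGroup G]

/-- centrally symmetric convex body -/
def SymmBody {d : ℕ} (B : Set (Fin d → ℝ)) : Prop :=
  Convex ℝ B ∧ IsCompact B ∧ (interior B).Nonempty ∧ ∀ x ∈ B, -x ∈ B

/-- `Covers d B ψ H T A`: `A` is covered by the translates `t + ψ(ℤ^d ∩ B) + H`, `t ∈ T`. -/
def Covers {d : ℕ} (B : Set (Fin d → ℝ)) (ψ : (Fin d → ℤ) →+ G) (H₀ : AddSubgroup G)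
    (T A : Finset G) : Prop :=
  ∀ a ∈ A, ∃ t ∈ T, ∃ c : Fin d → ℤ, (fun i => (c i : ℝ)) ∈ B ∧ ∃ h ∈ H₀, a = t + ψ c + h

theorem cover_seminorm_continuous {m : ℕ} (N : Seminorm ℝ (Fin m → ℝ)) : Continuous N := by
  classical
  apply Seminorm.continuous (r := 1)
  -- ball nhds zero
  have hb : ∀ x : Fin m → ℝ, N x ≤ (∑ i, N (Pi.single i 1)) * ‖x‖ := by
    intro x
    have hx : x = ∑ i, x i • (Pi.single i (1:ℝ) : Fin m → ℝ) := by
      ext j
      simp [Finset.sum_apply, Pi.single_apply]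
    calc N x = N (∑ i, x i • (Pi.single i (1:ℝ) : Fin m → ℝ)) := by rw [← hx]
      _ ≤ ∑ i, N (x i • (Pi.single i (1:ℝ) : Fin m → ℝ)) := Finset.le_sum_of_subadditive N (map_zero N).le (map_add_le_add N) _ _
      _ = ∑ i, ‖x i‖ * N (Pi.single i (1:ℝ)) := by simp [map_smul_eq_mul]
      _ ≤ ∑ i, ‖x‖ * N (Pi.single i (1:ℝ)) := by
          apply Finset.sum_le_sum
          intro i _
          exact mul_le_mul_of_nonneg_right (norm_le_pi_norm x i) (apply_nonneg N _)
      _ = (∑ i, N (Pi.single i 1)) * ‖x‖ := by rw [← Finset.mul_sum, mul_comm]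
  have hC : 0 ≤ ∑ i, N (Pi.single i (1:ℝ) : Fin m → ℝ) := Finset.sum_nonneg fun i _ => apply_nonneg N _
  rw [Metric.mem_nhds_iff]
  refine ⟨1 / (∑ i, N (Pi.single i (1:ℝ) : Fin m → ℝ) + 1), by positivity, ?_⟩
  intro x hx
  rw [mem_ball_zero_iff] at hx
  rw [Seminorm.mem_ball_zero]
  have h1 := hb x
  rw [lt_div_iff₀ (by positivity)] at hx
  nlinarith [norm_nonneg x]

/-- norm balls are symmetric convex bodies -/
theorem symmBody_ball {m : ℕ} (N : Seminorm ℝ (Fin m → ℝ)) (hN : ∀ x, N x = 0 → x = 0)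
    {r : ℝ} (hr : 0 < r) : SymmBody {x | N x ≤ r} := by
  have hcont := cover_seminorm_continuous N
  refine ⟨?_, ?_, ?_, ?_⟩
  · have := N.convex_closedBall 0 r
    rwa [Seminorm.closedBall_zero_eq] at this
  · -- compact
    have hclosed : IsClosed {x : Fin m → ℝ | N x ≤ r} := isClosed_le hcont continuous_const
    refine Metric.isCompact_of_isClosed_isBounded hclosed ?_
    -- lower bound
    have hlow : ∃ c > 0, ∀ x : Fin m → ℝ, c * ‖x‖ ≤ N x := by
      rcases (Metric.sphere (0 : Fin m → ℝ) 1).eq_empty_or_nonempty with he | hne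
      · refine ⟨1, one_pos, fun x => ?_⟩
        by_cases hx : x = 0
        · subst hx; simp
        · exfalso
          have : (‖x‖⁻¹ • x) ∈ Metric.sphere (0 : Fin m → ℝ) 1 := by
            rw [mem_sphere_zero_iff_norm, norm_smul, norm_inv, norm_norm,
              inv_mul_cancel₀ (norm_ne_zero_iff.2 hx)]
          rw [he] at this
          exact this
      · obtain ⟨x0, hx0, hmin⟩ := (isCompact_sphere (0 : Fin m → ℝ) 1).exists_isMinOn hne
          hcont.continuousOn
        have hx0' : x0 ≠ 0 := by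
          intro h
          rw [h] at hx0
          simp at hx0
        refine ⟨N x0, lt_of_le_of_ne (apply_nonneg N _) (fun h => hx0' (hN _ h.symm)), fun x => ?_⟩
        by_cases hx : x = 0
        · subst hx; simp
        · have hs : (‖x‖⁻¹ • x) ∈ Metric.sphere (0 : Fin m → ℝ) 1 := by
            rw [mem_sphere_zero_iff_norm, norm_smul, norm_inv, norm_norm,
              inv_mul_cancel₀ (norm_ne_zero_iff.2 hx)]
          have := hmin hs
          simp only [Set.mem_ofPred_eq] at this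
          rw [map_smul_eq_mul, norm_inv, norm_norm] at this
          have hpos : 0 < ‖x‖ := norm_pos_iff.2 hx
          calc N x0 * ‖x‖ ≤ (‖x‖⁻¹ * N x) * ‖x‖ := mul_le_mul_of_nonneg_right this hpos.le
            _ = N x := by field_simp
    obtain ⟨c, hc, hlow⟩ := hlow
    rw [isBounded_iff_forall_norm_le]
    refine ⟨r / c, fun x hx => ?_⟩
    rw [le_div_iff₀ hc]
    have := hlow x
    simp only [Set.mem_ofPred_eq] at hx
    linarith
  · refine ⟨0, ?_⟩
    rw [mem_interior]
    refine ⟨{x | N x < r}, fun x (hx : N x < r) => (le_of_lt hx : N x ≤ r), isOpen_lt hcont continuous_const, ?_⟩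
    simp [hr]
  · intro x hx
    simp only [Set.mem_ofPred_eq, map_neg_eq_map] at hx ⊢
    exact hx

/-- if `k • g ∈ H₁` with `k > 0` then `|H₁ + ⟨g⟩| ≤ k |H₁|`. -/
theorem cover_sup_card (H₁ : AddSubgroup G) [Finite H₁] (g : G) {k : ℕ} (hk : 0 < k)
    (hkg : k • g ∈ H₁) : Nat.card (H₁ ⊔ AddSubgroup.zmultiples g : AddSubgroup G) ≤
      k * Nat.card H₁ := by
  classical
  let f : Fin k × H₁ → (H₁ ⊔ AddSubgroup.zmultiples g : AddSubgroup G) := fun p =>
    ⟨(p.1 : ℕ) • g + p.2, by
      apply AddSubgroup.add_mem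
      · exact (le_sup_right : AddSubgroup.zmultiples g ≤ _)
          (AddSubgroup.nsmul_mem _ (AddSubgroup.mem_zmultiples g) _)
      · exact (le_sup_left : H₁ ≤ _) p.2.2⟩
  have hf : Function.Surjective f := by
    rintro ⟨x, hx⟩
    rw [AddSubgroup.mem_sup] at hx
    obtain ⟨y, hy, z, hz, rfl⟩ := hx
    obtain ⟨n, rfl⟩ := AddSubgroup.mem_zmultiples_iff.1 hz
    have hmod := Int.emod_nonneg n (by positivity : (k : ℤ) ≠ 0)
    have hlt := Int.emod_lt_of_pos n (by positivity : (0:ℤ) < k)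
    have hdiv := Int.emod_add_mul_ediv n k
    have hkq : ((k : ℤ) * (n / k)) • g ∈ H₁ := by
      rw [mul_comm, mul_smul]
      apply AddSubgroup.zsmul_mem
      simpa using hkg
    refine ⟨(⟨(n % k).toNat, by omega⟩, ⟨((k : ℤ) * (n / k)) • g + y, AddSubgroup.add_mem _ hkq hy⟩), ?_⟩
    apply Subtype.ext
    show ((n % k).toNat : ℕ) • g + (((k : ℤ) * (n / k)) • g + y) = y + n • g
    have h1 : ((n % k).toNat : ℕ) • g = (n % k) • g := by
      rw [← natCast_zsmul, Int.toNat_of_nonneg hmod]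
    rw [h1, ← add_assoc, ← add_smul, hdiv, add_comm]
  have := Nat.card_le_card_of_surjective f hf
  simpa [Nat.card_prod] using this

/-- a finite abelian group `H` larger than `a ≥ 1` is covered by few translates of a
one-dimensional coset progression of volume `≤ a`. -/
theorem big_subgroup (H₀ : AddSubgroup G) (hfin : Finite H₀) {a : ℕ} (ha : 1 ≤ a)
    (hbig : a < Nat.card H₀) :
    ∃ (l : ℕ) (g : G) (H₁ : AddSubgroup G) (T : Finset G), Finite H₁ ∧ H₁ ≤ H₀ ∧
      (2 * l + 1) * Nat.card H₁ ≤ a ∧ (T.card : ℝ) * a ≤ 6 * Nat.card H₀ ∧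
      ∀ h ∈ H₀, ∃ t ∈ T, ∃ c : ℤ, |c| ≤ l ∧ ∃ h' ∈ H₁, h = t + c • g + h' := by
  classical
  -- choose H₁ maximal
  have hex : ∃ n : ℕ, n ≤ a ∧ ∃ H₁ : AddSubgroup G, H₁ ≤ H₀ ∧ Nat.card H₁ = n := by
    exact ⟨1, ha, ⊥, bot_le, by simp⟩
  obtain ⟨n, ⟨hna, H₁, hle, hcard⟩, hmax⟩ : ∃ n : ℕ, (n ≤ a ∧ ∃ H₁ : AddSubgroup G, H₁ ≤ H₀ ∧ Nat.card H₁ = n) ∧
      ∀ n', (n' ≤ a ∧ ∃ H₁ : AddSubgroup G, H₁ ≤ H₀ ∧ Nat.card H₁ = n') → n' ≤ n := by
    have hb : ∀ n : ℕ, (n ≤ a ∧ ∃ H₁ : AddSubgroup G, H₁ ≤ H₀ ∧ Nat.card H₁ = n) → n ≤ a := fun n h => h.1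
    obtain ⟨n0, h0⟩ := hex
    refine ⟨Nat.findGreatest (fun n => n ≤ a ∧ ∃ H₁ : AddSubgroup G, H₁ ≤ H₀ ∧ Nat.card H₁ = n) a, ?_, ?_⟩
    · exact Nat.findGreatest_spec (P := fun n => n ≤ a ∧ ∃ H₁ : AddSubgroup G, H₁ ≤ H₀ ∧ Nat.card H₁ = n) h0.1 h0
    · intro n' h'
      exact Nat.le_findGreatest h'.1 h'
  have hfin1 : Finite H₁ := Finite.of_injective (fun x : H₁ => (⟨x.1, hle x.2⟩ : H₀)) (by
    intro x y h
    apply Subtype.ext
    exact congrArg (fun z : H₀ => (z : G)) h)
  have hH1pos : 0 < Nat.card H₁ := Nat.card_pos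
  have hne : ∃ g ∈ H₀, g ∉ H₁ := by
    by_contra hcon
    push Not at hcon
    have : H₀ = H₁ := le_antisymm hcon hle
    rw [this] at hbig
    omega
  obtain ⟨g, hg0, hg1⟩ := hne
  have hsup_le : H₁ ⊔ AddSubgroup.zmultiples g ≤ H₀ := by
    apply sup_le hle
    rw [AddSubgroup.zmultiples_le]
    exact hg0
  have hsup_big : a < Nat.card (H₁ ⊔ AddSubgroup.zmultiples g : AddSubgroup G) := by
    by_contra hcon
    push Not at hcon
    have h1 := hmax _ ⟨hcon, _, hsup_le, rfl⟩
    have hfin2 : Finite (H₁ ⊔ AddSubgroup.zmultiples g : AddSubgroup G) :=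
      Finite.of_injective (fun x : (H₁ ⊔ AddSubgroup.zmultiples g : AddSubgroup G) => (⟨x.1, hsup_le x.2⟩ : H₀)) (by
        intro x y h
        apply Subtype.ext
        exact congrArg (fun z : H₀ => (z : G)) h)
    have h2 : H₁ = H₁ ⊔ AddSubgroup.zmultiples g := by
      apply AddSubgroup.eq_of_le_of_card_ge le_sup_left
      rw [hcard]; exact h1
    apply hg1
    rw [h2]
    exact (le_sup_right : AddSubgroup.zmultiples g ≤ _) (AddSubgroup.mem_zmultiples g)
  -- parameters
  set x := a / Nat.card H₁ with hx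
  have hx1 : 1 ≤ x := by
    rw [hx, Nat.le_div_iff_mul_le hH1pos]; omega
  have hxa : x * Nat.card H₁ ≤ a := Nat.div_mul_le_self _ _
  have hxa2 : a < (x + 1) * Nat.card H₁ := by
    have := Nat.lt_div_mul_add hH1pos (a := a)
    rw [← hx] at this
    linarith [add_mul x 1 (Nat.card H₁)]
  set l := (x - 1) / 2 with hl
  have hl1 : 2 * l + 1 ≤ x := by omega
  have hl2 : x + 1 ≤ 3 * (l + 1) := by omega
  -- finsets
  have hsetfin0 : (H₀ : Set G).Finite := Set.toFinite _
  have hsetfin1 : (H₁ : Set G).Finite := Set.toFinite _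
  set F0 := hsetfin0.toFinset with hF0
  set F1 := hsetfin1.toFinset with hF1
  have hF0c : F0.card = Nat.card H₀ := by
    rw [hF0, ← Set.ncard_eq_toFinset_card _ hsetfin0]; rfl
  have hF1c : F1.card = Nat.card H₁ := by
    rw [hF1, ← Set.ncard_eq_toFinset_card _ hsetfin1]; rfl
  set P := ((Finset.range (l + 1)) ×ˢ F1).image (fun p : ℕ × G => p.1 • g + p.2) with hP
  have hnotin : ∀ k : ℕ, 0 < k → k ≤ l → k • g ∉ H₁ := by
    intro k hk hkl hmem
    have h1 := cover_sup_card H₁ g hk hmem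
    have h2 : k * Nat.card H₁ ≤ x * Nat.card H₁ := Nat.mul_le_mul_right _ (by omega)
    omega
  have hPc : P.card = (l + 1) * Nat.card H₁ := by
    rw [hP, Finset.card_image_of_injOn, Finset.card_product, Finset.card_range, hF1c]
    -- injectivity
    have key : ∀ c c' : ℕ, ∀ h h' : G, c' < c → c ≤ l → h ∈ H₁ → h' ∈ H₁ → c • g + h = c' • g + h' → False := by
      intro c c' h h' hlt hcl hh hh' heq
      apply hnotin (c - c') (by omega) (by omega)
      have : (c - c') • g = h' - h := by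
        have e1 : c • g = (c - c') • g + c' • g := by
          rw [← add_smul]; congr 1; omega
        rw [e1] at heq
        have : (c - c') • g + h + c' • g = h' + c' • g := by
          rw [add_right_comm, heq, add_comm]
        have := add_right_cancel this
        rw [← this]; abel
      rw [this]
      exact H₁.sub_mem hh' hh
    rintro ⟨c, h⟩ hc ⟨c', h'⟩ hc' heq
    simp only [Finset.coe_product, Set.mem_prod, Finset.mem_range, hF1,
      Set.Finite.mem_toFinset, SetLike.mem_coe] at hc hc'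
    simp only at heq
    rcases lt_trichotomy c c' with hlt | heqc | hgt
    · exact (key c' c h' h hlt (by omega) hc'.2 hc.2 heq.symm).elim
    · subst heqc
      rw [add_left_cancel heq]
    · exact (key c c' h h' hgt (by omega) hc.2 hc'.2 heq).elim
  have hPne : P.Nonempty := by
    rw [← Finset.card_pos, hPc]; positivity
  have hPsub : ∀ p ∈ P, p ∈ H₀ := by
    intro p hp
    rw [hP, Finset.mem_image] at hp
    obtain ⟨⟨c, h⟩, hch, rfl⟩ := hp
    simp only [Finset.mem_product, Finset.mem_range, hF1, Set.Finite.mem_toFinset,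
      SetLike.mem_coe] at hch
    exact H₀.add_mem (H₀.nsmul_mem hg0 _) (hle hch.2)
  open scoped Pointwise in
  have hadd : ((F0 + P).card : ℝ) ≤ ((Nat.card H₀ : ℝ) / P.card) * P.card := by
    have hPpos : (0 : ℝ) < P.card := by exact_mod_cast hPne.card_pos
    rw [div_mul_cancel₀ _ hPpos.ne', ← hF0c]
    norm_cast
    apply Finset.card_le_card
    intro z hz
    obtain ⟨u, hu, v, hv, rfl⟩ := Finset.mem_add.1 hz
    rw [hF0, Set.Finite.mem_toFinset] at hu ⊢
    exact H₀.add_mem hu (hPsub v hv)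
  obtain ⟨T, hTsub, hTc, hcov⟩ := Finset.ruzsa_covering_add hPne hadd
  refine ⟨l, g, H₁, T, hfin1, hle, ?_, ?_, ?_⟩
  · calc (2 * l + 1) * Nat.card H₁ ≤ x * Nat.card H₁ := Nat.mul_le_mul_right _ hl1
      _ ≤ a := hxa
  · have hPpos : (0 : ℝ) < P.card := by exact_mod_cast hPne.card_pos
    rw [le_div_iff₀ hPpos] at hTc
    have h3 : (a : ℝ) ≤ 3 * P.card := by
      have : a ≤ 3 * P.card := by
        rw [hPc]
        have := Nat.mul_le_mul_right (Nat.card H₁) hl2
        nlinarith
      exact_mod_cast this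
    have hT0 : (0:ℝ) ≤ T.card := by positivity
    have hH0 : (0:ℝ) ≤ Nat.card H₀ := by positivity
    calc (T.card : ℝ) * a ≤ T.card * (3 * P.card) := mul_le_mul_of_nonneg_left h3 hT0
      _ = 3 * (T.card * P.card) := by ring
      _ ≤ 3 * Nat.card H₀ := by linarith
      _ ≤ 6 * Nat.card H₀ := by linarith
  · intro h hh
    have hh' : h ∈ F0 := by rw [hF0, Set.Finite.mem_toFinset]; exact hh
    have := hcov hh'
    obtain ⟨t, ht, d, hd, rfl⟩ := Finset.mem_add.1 this
    obtain ⟨p, hp, p', hp', rfl⟩ := Finset.mem_sub.1 hd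
    rw [hP, Finset.mem_image] at hp hp'
    obtain ⟨⟨c, u⟩, hcu, rfl⟩ := hp
    obtain ⟨⟨c', u'⟩, hcu', rfl⟩ := hp'
    simp only [Finset.mem_product, Finset.mem_range, hF1, Set.Finite.mem_toFinset,
      SetLike.mem_coe] at hcu hcu'
    refine ⟨t, ht, (c : ℤ) - c', ?_, u - u', H₁.sub_mem hcu.2 hcu'.2, ?_⟩
    · rw [abs_le]; constructor <;> omega
    · simp only [sub_smul, natCast_zsmul]
      abel

open scoped Pointwise

theorem cover_bohr_mono (S : Set (G →+ UnitAddCircle)) {r r' : ℝ} (h : r ≤ r') :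
    bohr S r ⊆ bohr S r' := fun _ hx γ hγ => (hx γ hγ).trans h

theorem cover_bohr_add (S : Set (G →+ UnitAddCircle)) {r r' : ℝ} {x y : G}
    (hx : x ∈ bohr S r) (hy : y ∈ bohr S r') : x + y ∈ bohr S (r + r') := by
  intro γ hγ
  rw [map_add]
  exact (norm_add_le _ _).trans (add_le_add (hx γ hγ) (hy γ hγ))

theorem cover_bohr_sub (S : Set (G →+ UnitAddCircle)) {r r' : ℝ} {x y : G}
    (hx : x ∈ bohr S r) (hy : y ∈ bohr S r') : x - y ∈ bohr S (r + r') := by
  intro γ hγ
  rw [map_sub]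
  exact (norm_sub_le _ _).trans (add_le_add (hx γ hγ) (hy γ hγ))

theorem cover_ann_sub (S : Set (G →+ UnitAddCircle)) {r : ℝ} (hr : 0 ≤ r) {x : G}
    (hx : x ∈ ann S) : x ∈ bohr S r := by
  intro γ hγ
  have : γ x = 0 := hx γ hγ
  rw [this, norm_zero]; exact hr

section
variable (S : Set (G →+ UnitAddCircle)) (hfin : (bohr S (1 / 6)).Finite)
    {ρ : ℝ} (hρ0 : 0 < ρ) (hρ : ρ ≤ 1 / 12)
    {m : ℕ} (N : Seminorm ℝ (Fin m → ℝ)) (ψ : (Fin m → ℤ) →+ G) (hN : ∀ x, N x = 0 → x = 0)
    (h1 : ∀ c : Fin m → ℤ, N (fun i => (c i : ℝ)) < 1 / 2 → ∀ r : ℝ, 0 ≤ r →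
        (ψ c ∈ bohr S r ↔ c ∈ LL N r))
    (h2 : ∀ x ∈ bohr S ρ, ∃ c ∈ LL N ρ, x - ψ c ∈ ann S)

include hρ h1 h2 in
theorem cover_mem {r : ℝ} (hr0 : 0 ≤ r) (hr : r ≤ ρ) {x : G} (hx : x ∈ bohr S r) :
    ∃ c ∈ LL N r, x - ψ c ∈ ann S := by
  obtain ⟨c, hc, hxc⟩ := h2 x (cover_bohr_mono S hr hx)
  refine ⟨c, ?_, hxc⟩
  have hc' : N (fun i => (c i : ℝ)) < 1 / 2 := by
    have : N (fun i => (c i : ℝ)) ≤ ρ := hc
    linarith
  rw [← h1 c hc' r hr0]
  intro γ hγ
  have e : γ (x - ψ c) = 0 := hxc γ hγ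
  rw [map_sub, sub_eq_zero] at e
  rw [← e]
  exact hx γ hγ

include hρ h1 in
theorem cover_mem' {r : ℝ} (hr0 : 0 ≤ r) (hr : r ≤ ρ) {c : Fin m → ℤ} (hc : c ∈ LL N r) {h : G}
    (hh : h ∈ ann S) : ψ c + h ∈ bohr S r := by
  have hc' : N (fun i => (c i : ℝ)) < 1 / 2 := by
    have : N (fun i => (c i : ℝ)) ≤ r := hc
    linarith
  have := (h1 c hc' r hr0).2 hc
  intro γ hγ
  have e : γ h = 0 := hh γ hγ
  rw [map_add, e, add_zero]
  exact this γ hγ

include hρ hN h1 in
theorem cover_inj {r : ℝ} (hr : r ≤ ρ) {c c' : Fin m → ℤ} (hc : c ∈ LL N r)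
    (hc' : c' ∈ LL N r) (h : ψ c - ψ c' ∈ ann S) : c = c' := by
  have e1 : N (fun i => ((c - c') i : ℝ)) ≤ N (fun i => (c i : ℝ)) + N (fun i => (c' i : ℝ)) := by
    have : (fun i => (((c - c') i : ℤ) : ℝ)) = (fun i => (c i : ℝ)) - (fun i => (c' i : ℝ)) := by
      ext i; simp
    rw [this]
    exact map_sub_le_add N _ _
  have hcc : N (fun i => (((c - c') i : ℤ) : ℝ)) < 1 / 2 := by
    have a1 : N (fun i => (c i : ℝ)) ≤ r := hc
    have a2 : N (fun i => (c' i : ℝ)) ≤ r := hc'
    linarith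
  have h0 : ψ (c - c') ∈ bohr S 0 := by
    rw [map_sub]
    exact cover_ann_sub S le_rfl h
  have h3 := (h1 _ hcc 0 le_rfl).1 h0
  have h4 : N (fun i => (((c - c') i : ℤ) : ℝ)) = 0 := le_antisymm h3 (apply_nonneg N _)
  have h5 := hN _ h4
  ext i
  have h6 := congrFun h5 i
  simp only [Pi.sub_apply, Int.cast_sub, Pi.zero_apply] at h6
  have h7 : (c i : ℝ) = c' i := by linarith
  exact_mod_cast h7

include hfin in
theorem cover_ann_finite : Finite (ann S) := by
  have : ((ann S : AddSubgroup G) : Set G).Finite :=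
    hfin.subset (fun x hx => cover_ann_sub S (by norm_num) hx)
  exact this

include hfin hρ hN h1 in
theorem cover_LL_finite {r : ℝ} (hr : r ≤ ρ) : (LL N r).Finite := by
  rcases lt_or_ge r 0 with hneg | hr0
  · have : LL N r = ∅ := by
      ext c
      simp only [LL, Set.mem_ofPred_eq, Set.mem_empty_iff_false, iff_false, not_le]
      exact lt_of_lt_of_le hneg (apply_nonneg N _)
    rw [this]; exact Set.finite_empty
  · apply Set.Finite.of_finite_image (f := ψ)
    · apply hfin.subset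
      rintro _ ⟨c, hc, rfl⟩
      have := cover_mem' S hρ N ψ h1 hr0 hr hc (ann S).zero_mem
      rw [add_zero] at this
      exact cover_bohr_mono S (by linarith) this
    · intro c hc c' hc' heq
      apply cover_inj S hρ N ψ hN h1 hr hc hc'
      rw [heq, sub_self]
      exact (ann S).zero_mem

include hρ hN h1 h2 in
theorem cover_card {r : ℝ} (hr0 : 0 ≤ r) (hr : r ≤ ρ) :
    (bohr S r).ncard = (LL N r).ncard * Nat.card (ann S) := by
  classical
  have e : bohr S r = (fun p : (Fin m → ℤ) × G => ψ p.1 + p.2) '' (LL N r ×ˢ (ann S : Set G)) := by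
    ext x
    constructor
    · intro hx
      obtain ⟨c, hc, hxc⟩ := cover_mem S hρ N ψ h1 h2 hr0 hr hx
      exact ⟨(c, x - ψ c), ⟨hc, hxc⟩, by simp⟩
    · rintro ⟨⟨c, h⟩, ⟨hc, hh⟩, rfl⟩
      exact cover_mem' S hρ N ψ h1 hr0 hr hc hh
  rw [e, Set.InjOn.ncard_image, Set.ncard_prod]
  · rfl
  · rintro ⟨c, h⟩ ⟨hc, hh⟩ ⟨c', h'⟩ ⟨hc', hh'⟩ heq
    simp only at heq hc hh hc' hh'
    have hcc : c = c' := by
      apply cover_inj S hρ N ψ hN h1 hr hc hc'
      have : ψ c - ψ c' = h' - h := by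
        rw [sub_eq_sub_iff_add_eq_add, heq]; abel
      rw [this]
      exact (ann S).sub_mem hh' hh
    subst hcc
    rw [add_left_cancel heq]

end


/-- Final geometric step. -/
theorem cover_final (S : Set (G →+ UnitAddCircle)) (hfin : (bohr S (1 / 6)).Finite)
    {A : Finset G} (hA : A.Nonempty) {V : ℝ} (hV : 1 ≤ V)
    (hsize : ((bohr S (1 / 6)).ncard : ℝ) ≤ V * A.card)
    {ρ : ℝ} (hρ0 : 0 < ρ) (hρ : ρ ≤ 1 / 12) {X : Finset G}
    (hX : ∀ a ∈ A, ∃ x ∈ X, a - x ∈ bohr S ρ)
    {m : ℕ} (N : Seminorm ℝ (Fin m → ℝ)) (ψ : (Fin m → ℤ) →+ G) (hN : ∀ x, N x = 0 → x = 0)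
    (h1 : ∀ c : Fin m → ℤ, N (fun i => (c i : ℝ)) < 1 / 2 → ∀ r : ℝ, 0 ≤ r →
        (ψ c ∈ bohr S r ↔ c ∈ LL N r))
    (h2 : ∀ x ∈ bohr S ρ, ∃ c ∈ LL N ρ, x - ψ c ∈ ann S) :
    ∃ (d : ℕ) (B : Set (Fin d → ℝ)) (ψ' : (Fin d → ℤ) →+ G) (H₀ : AddSubgroup G) (T : Finset G),
      d ≤ max m 1 ∧ SymmBody B ∧ Finite H₀ ∧
      {c : Fin d → ℤ | (fun i => (c i : ℝ)) ∈ B}.ncard * Nat.card H₀ ≤ A.card ∧
      (T.card : ℝ) ≤ X.card * (6 * V * (4 * m + 1) ^ (2 * m)) ∧
      Covers B ψ' H₀ T A := by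
  classical
  have hannfin : Finite (ann S) := cover_ann_finite S hfin
  have hannpos : 0 < Nat.card (ann S) := Nat.card_pos
  have hAc : 0 < A.card := hA.card_pos
  have hpow1 : (1 : ℝ) ≤ (4 * m + 1) ^ (2 * m) := one_le_pow₀ (by
    have : (0:ℝ) ≤ m := by positivity
    linarith)
  have hLfin : ∀ r, r ≤ ρ → (LL N r).Finite := fun r hr => cover_LL_finite S hfin hρ N ψ hN h1 hr
  have hcard : ∀ r, 0 ≤ r → r ≤ ρ → (bohr S r).ncard = (LL N r).ncard * Nat.card (ann S) :=
    fun r hr0 hr => cover_card S hρ N ψ hN h1 h2 hr0 hr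
  by_cases hcase : A.card < Nat.card (ann S)
  · -- big subgroup
    obtain ⟨l, g, H₁, T', hfin1, hle, hvol, hT', hcov⟩ := big_subgroup (ann S) hannfin hAc hcase
    let ψ' : (Fin 1 → ℤ) →+ G :=
      { toFun := fun c => c 0 • g
        map_zero' := by simp
        map_add' := fun a b => by simp [add_smul] }
    let N1 : Seminorm ℝ (Fin 1 → ℝ) := normSeminorm ℝ (Fin 1 → ℝ)
    have hN1 : ∀ x : Fin 1 → ℝ, N1 x = |x 0| := by
      intro x
      show ‖x‖ = |x 0|
      rw [← Real.norm_eq_abs]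
      apply le_antisymm
      · rw [pi_norm_le_iff_of_nonneg (norm_nonneg _)]
        intro i
        rw [Subsingleton.elim i 0]
      · exact norm_le_pi_norm x 0
    set LF := (hLfin ρ le_rfl).toFinset with hLF
    set T : Finset G := (X ×ˢ (LF ×ˢ T')).image (fun p => p.1 + ψ p.2.1 + p.2.2) with hT
    refine ⟨1, {x | N1 x ≤ (l : ℝ) + 1 / 2}, ψ', H₁, T, le_max_right _ _, ?_, hfin1, ?_, ?_, ?_⟩
    · apply symmBody_ball N1
      · intro x hx
        exact norm_eq_zero.1 hx
      · positivity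
    · have e : {c : Fin 1 → ℤ | (fun i => (c i : ℝ)) ∈ {x : Fin 1 → ℝ | N1 x ≤ (l : ℝ) + 1 / 2}} =
          (fun z : ℤ => (fun _ : Fin 1 => z)) '' (Finset.Icc (-(l : ℤ)) l : Set ℤ) := by
        ext c
        simp only [Set.mem_ofPred_eq, hN1, Set.mem_image, Finset.coe_Icc, Set.mem_Icc]
        constructor
        · intro h
          refine ⟨c 0, ?_, ?_⟩
          · have h' : |c 0| < (l : ℤ) + 1 := by
              have : ((|c 0| : ℤ) : ℝ) < ((l : ℤ) + 1 : ℤ) := by
                push_cast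
                linarith
              exact_mod_cast this
            rw [abs_lt] at h'
            constructor <;> omega
          · ext i
            rw [Subsingleton.elim i 0]
        · rintro ⟨z, hz, rfl⟩
          have : ((|z| : ℤ) : ℝ) ≤ ((l : ℤ) : ℝ) := by
            exact_mod_cast abs_le.2 hz
          push_cast at this
          linarith
      have hcount : {c : Fin 1 → ℤ | (fun i => (c i : ℝ)) ∈ {x : Fin 1 → ℝ | N1 x ≤ (l : ℝ) + 1 / 2}}.ncard
          = 2 * l + 1 := by
        rw [e, Set.ncard_image_of_injective]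
        · rw [Set.ncard_coe_finset, Int.card_Icc]
          omega
        · intro a b hab
          exact congrFun hab 0
      rw [hcount]
      exact hvol
    · -- card
      have hTc : T.card ≤ X.card * ((LL N ρ).ncard * T'.card) := by
        rw [hT]
        refine Finset.card_image_le.trans ?_
        rw [Finset.card_product, Finset.card_product, Set.ncard_eq_toFinset_card _ (hLfin ρ le_rfl)]
      have h3 : ((LL N ρ).ncard : ℝ) * Nat.card (ann S) ≤ V * A.card := by
        have := hcard ρ hρ0.le le_rfl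
        have h4 : (bohr S ρ).ncard ≤ (bohr S (1/6)).ncard :=
          Set.ncard_le_ncard (cover_bohr_mono S (by linarith)) hfin
        calc ((LL N ρ).ncard : ℝ) * Nat.card (ann S) = ((bohr S ρ).ncard : ℝ) := by
              rw [this]; push_cast; ring
          _ ≤ ((bohr S (1/6)).ncard : ℝ) := by exact_mod_cast h4
          _ ≤ _ := hsize
      have hA0 : (0:ℝ) < A.card := by exact_mod_cast hAc
      have h5 : ((LL N ρ).ncard : ℝ) * T'.card ≤ 6 * V := by
        have h6 : ((LL N ρ).ncard : ℝ) * T'.card * A.card ≤ 6 * V * A.card := by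
          calc ((LL N ρ).ncard : ℝ) * T'.card * A.card = ((LL N ρ).ncard : ℝ) * (T'.card * A.card) := by ring
            _ ≤ ((LL N ρ).ncard : ℝ) * (6 * Nat.card (ann S)) :=
                mul_le_mul_of_nonneg_left hT' (by positivity)
            _ = 6 * (((LL N ρ).ncard : ℝ) * Nat.card (ann S)) := by ring
            _ ≤ 6 * (V * A.card) := by linarith
            _ = _ := by ring
        exact le_of_mul_le_mul_right h6 hA0
      calc (T.card : ℝ) ≤ X.card * (((LL N ρ).ncard : ℝ) * T'.card) := by exact_mod_cast hTc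
        _ ≤ X.card * (6 * V) := mul_le_mul_of_nonneg_left h5 (by positivity)
        _ ≤ X.card * (6 * V * (4 * m + 1) ^ (2 * m)) := by
            apply mul_le_mul_of_nonneg_left _ (by positivity)
            have : 0 ≤ 6 * V := by linarith
            nlinarith
    · intro a ha
      obtain ⟨x, hx, hax⟩ := hX a ha
      obtain ⟨c, hc, hh⟩ := h2 _ hax
      obtain ⟨t, ht, z, hz, h', hh', heq⟩ := hcov _ hh
      refine ⟨x + ψ c + t, ?_, fun _ => z, ?_, h', hh', ?_⟩
      · rw [hT, Finset.mem_image]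
        refine ⟨(x, c, t), ?_, rfl⟩
        simp only [Finset.mem_product, hLF, Set.Finite.mem_toFinset]
        exact ⟨hx, hc, ht⟩
      · simp only [Set.mem_ofPred_eq, hN1]
        have : ((|z| : ℤ) : ℝ) ≤ ((l : ℤ) : ℝ) := by exact_mod_cast hz
        push_cast at this
        linarith
      · show a = x + ψ c + t + z • g + h'
        have : a = x + ψ c + (a - x - ψ c) := by abel
        rw [this, heq]
        abel
  · push Not at hcase
    -- find j
    have hexj : ∃ j : ℕ, (LL N (ρ / 2 ^ j)).ncard * Nat.card (ann S) ≤ A.card := by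
      have hpos : ∀ c ∈ LL N ρ, c ≠ 0 → 0 < N (fun i => (c i : ℝ)) := by
        intro c _ hc0
        refine lt_of_le_of_ne (apply_nonneg N _) (fun h => hc0 ?_)
        have := hN _ h.symm
        ext i
        have h6 := congrFun this i
        simp only [Pi.zero_apply] at h6 ⊢
        exact_mod_cast h6
      -- minimal positive value
      obtain ⟨ε, hε, hεmin⟩ : ∃ ε : ℝ, 0 < ε ∧ ∀ c ∈ LL N ρ, c ≠ 0 → ε ≤ N (fun i => (c i : ℝ)) := by
        set F := ((hLfin ρ le_rfl).toFinset.erase 0).image (fun c => N (fun i => (c i : ℝ))) with hF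
        rcases F.eq_empty_or_nonempty with hemp | hne
        · refine ⟨1, one_pos, fun c hc hc0 => ?_⟩
          exfalso
          have : N (fun i => (c i : ℝ)) ∈ F := by
            rw [hF, Finset.mem_image]
            exact ⟨c, by simp [hc0, hc], rfl⟩
          rw [hemp] at this
          simp at this
        · refine ⟨F.min' hne, ?_, fun c hc hc0 => ?_⟩
          · obtain ⟨c, hc, hceq⟩ := Finset.mem_image.1 (F.min'_mem hne)
            simp only [Finset.mem_erase, Set.Finite.mem_toFinset] at hc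
            rw [← hceq]
            exact hpos c hc.2 hc.1
          · apply Finset.min'_le
            rw [hF, Finset.mem_image]
            exact ⟨c, by simp [hc0, hc], rfl⟩
      obtain ⟨j, hj⟩ := exists_pow_lt_of_lt_one (by positivity : 0 < ε / ρ) (by norm_num : (1/2 : ℝ) < 1)
      refine ⟨j, ?_⟩
      have hsub : LL N (ρ / 2 ^ j) ⊆ {0} := by
        intro c hc
        by_contra hc0
        simp only [Set.mem_singleton_iff] at hc0
        have hc' : N (fun i => (c i : ℝ)) ≤ ρ / 2 ^ j := hc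
        have hle : ρ / 2 ^ j ≤ ρ := div_le_self hρ0.le (one_le_pow₀ (by norm_num))
        have h3 := hεmin c (hc'.trans hle) hc0
        have h4 : ρ / 2 ^ j < ε := by
          rw [lt_div_iff₀ hρ0] at hj
          calc ρ / 2 ^ j = (1 / 2) ^ j * ρ := by rw [one_div, inv_pow]; ring
            _ < ε := hj
        linarith
      have : (LL N (ρ / 2 ^ j)).ncard ≤ 1 := by
        have := Set.ncard_le_ncard hsub (Set.finite_singleton _)
        simpa using this
      calc (LL N (ρ / 2 ^ j)).ncard * Nat.card (ann S) ≤ 1 * Nat.card (ann S) :=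
            Nat.mul_le_mul_right _ this
        _ ≤ A.card := by omega
    set j := Nat.find hexj with hj
    have hjspec : (LL N (ρ / 2 ^ j)).ncard * Nat.card (ann S) ≤ A.card := Nat.find_spec hexj
    have hjmin : ∀ k < j, A.card < (LL N (ρ / 2 ^ k)).ncard * Nat.card (ann S) := by
      intro k hk
      have := Nat.find_min hexj hk
      omega
    have hrpos : 0 < ρ / 2 ^ j := by positivity
    have hrle : ρ / 2 ^ j ≤ ρ := div_le_self hρ0.le (one_le_pow₀ (by norm_num))
    have hbodycount : {c : Fin m → ℤ | (fun i => (c i : ℝ)) ∈ {x : Fin m → ℝ | N x ≤ ρ / 2 ^ j}} = LL N (ρ / 2 ^ j) := rfl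
    -- the covering of bohr S ρ
    obtain ⟨Y, hYc, hYcov⟩ : ∃ Y : Finset G, (Y.card : ℝ) ≤ V * (4 * m + 1) ^ (2 * m) ∧
        ∀ b ∈ bohr S ρ, ∃ y ∈ Y, b - y ∈ bohr S (ρ / 2 ^ j) := by
      rcases Nat.eq_zero_or_pos j with hj0 | hjpos
      · refine ⟨{0}, ?_, fun b hb => ⟨0, by simp, ?_⟩⟩
        · rw [Finset.card_singleton]
          push_cast
          nlinarith
        · rw [sub_zero, hj0, pow_zero, div_one]
          exact hb
      · set r := ρ / 2 ^ j with hr
        have h2r : ρ / 2 ^ (j - 1) = 2 * r := by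
          rw [hr]
          obtain ⟨k, hk⟩ : ∃ k, j = k + 1 := ⟨j - 1, by omega⟩
          rw [hk, Nat.add_sub_cancel, pow_succ]
          field_simp
        have hbig := hjmin (j - 1) (by omega)
        rw [h2r] at hbig
        have h2rle : 2 * r ≤ ρ := by
          rw [← h2r]
          exact div_le_self hρ0.le (one_le_pow₀ (by norm_num))
        have hd1 := doubling N (r := 2 * r) (by linarith) (hLfin _ h2rle)
        have hd2 := doubling N (r := 2 * r / 2) (by linarith) (hLfin _ (by linarith))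
        have hhalf : (2 * r / 2 / 2) = r / 2 := by ring
        rw [hhalf] at hd2
        have hd : (LL N (2 * r)).ncard ≤ (4 * m + 1) ^ (2 * m) * (LL N (r / 2)).ncard := by
          calc (LL N (2 * r)).ncard ≤ (4 * m + 1) ^ m * (LL N (2 * r / 2)).ncard := hd1
            _ ≤ (4 * m + 1) ^ m * ((4 * m + 1) ^ m * (LL N (r / 2)).ncard) := Nat.mul_le_mul_left _ hd2
            _ = _ := by rw [two_mul, pow_add]; ring
        have hb2 : (bohr S (r / 2)).ncard = (LL N (r / 2)).ncard * Nat.card (ann S) :=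
          hcard _ (by linarith) (by linarith)
        have hAle : (A.card : ℝ) ≤ (4 * m + 1) ^ (2 * m) * (bohr S (r / 2)).ncard := by
          have : A.card ≤ (4 * m + 1) ^ (2 * m) * (bohr S (r / 2)).ncard := by
            rw [hb2]
            calc A.card ≤ (LL N (2 * r)).ncard * Nat.card (ann S) := hbig.le
              _ ≤ ((4 * m + 1) ^ (2 * m) * (LL N (r / 2)).ncard) * Nat.card (ann S) :=
                  Nat.mul_le_mul_right _ hd
              _ = _ := by ring
          exact_mod_cast this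
        have hfin1 : (bohr S ρ).Finite := hfin.subset (cover_bohr_mono S (by linarith))
        have hfin2 : (bohr S (r / 2)).Finite := hfin.subset (cover_bohr_mono S (by linarith))
        have hPne : hfin2.toFinset.Nonempty := by
          refine ⟨0, ?_⟩
          rw [Set.Finite.mem_toFinset]
          exact cover_ann_sub S (by linarith) (ann S).zero_mem
        have hadd : ((hfin1.toFinset + hfin2.toFinset).card : ℝ) ≤
            (V * (4 * m + 1) ^ (2 * m)) * hfin2.toFinset.card := by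
          have hsub : hfin1.toFinset + hfin2.toFinset ⊆ hfin.toFinset := by
            intro z hz
            obtain ⟨u, hu, v, hv, rfl⟩ := Finset.mem_add.1 hz
            rw [Set.Finite.mem_toFinset] at hu hv ⊢
            exact cover_bohr_mono S (by linarith) (cover_bohr_add S hu hv)
          have h6 : hfin2.toFinset.card = (bohr S (r / 2)).ncard :=
            (Set.ncard_eq_toFinset_card _ hfin2).symm
          have h7 : hfin.toFinset.card = (bohr S (1 / 6)).ncard :=
            (Set.ncard_eq_toFinset_card _ hfin).symm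
          calc ((hfin1.toFinset + hfin2.toFinset).card : ℝ) ≤ (hfin.toFinset.card : ℝ) := by
                exact_mod_cast Finset.card_le_card hsub
            _ ≤ V * A.card := by rw [h7]; exact hsize
            _ ≤ V * ((4 * m + 1) ^ (2 * m) * (bohr S (r / 2)).ncard) :=
                mul_le_mul_of_nonneg_left hAle (by linarith)
            _ = _ := by rw [h6]; ring
        obtain ⟨Y, _, hYc, hcov⟩ := Finset.ruzsa_covering_add hPne hadd
        refine ⟨Y, hYc, fun b hb => ?_⟩
        have hb' : b ∈ hfin1.toFinset := by rw [Set.Finite.mem_toFinset]; exact hb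
        obtain ⟨y, hy, d, hd', rfl⟩ := Finset.mem_add.1 (hcov hb')
        obtain ⟨p, hp, p', hp', rfl⟩ := Finset.mem_sub.1 hd'
        rw [Set.Finite.mem_toFinset] at hp hp'
        refine ⟨y, hy, ?_⟩
        have := cover_bohr_sub S hp hp'
        rw [add_sub_cancel_left]
        have e : r / 2 + r / 2 = r := by ring
        rwa [e] at this
    refine ⟨m, {x | N x ≤ ρ / 2 ^ j}, ψ, ann S, X + Y, le_max_left _ _, symmBody_ball N hN hrpos,
      hannfin, ?_, ?_, ?_⟩
    · rw [hbodycount]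
      exact hjspec
    · calc ((X + Y).card : ℝ) ≤ X.card * Y.card := by exact_mod_cast Finset.card_add_le
        _ ≤ X.card * (V * (4 * m + 1) ^ (2 * m)) := mul_le_mul_of_nonneg_left hYc (by positivity)
        _ ≤ X.card * (6 * V * (4 * m + 1) ^ (2 * m)) := by
            apply mul_le_mul_of_nonneg_left _ (by positivity)
            have : 0 ≤ V * (4 * m + 1) ^ (2 * m) := by positivity
            nlinarith
    · intro a ha
      obtain ⟨x, hx, hax⟩ := hX a ha
      obtain ⟨y, hy, hby⟩ := hYcov _ hax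
      obtain ⟨c, hc, hh⟩ := cover_mem S hρ N ψ h1 h2 hrpos.le hrle hby
      refine ⟨x + y, Finset.add_mem_add hx hy, c, hc, a - x - y - ψ c, hh, ?_⟩
      abel

end H112
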