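import Pool.Agent.H112R2.Lattice
import Pool.Agent.H112R2.John
set_option autoImplicit false

/-! Module Gap: covering by a proper generalised arithmetic progression (torsion-free case). -/

namespace H112

open Finset
open scoped Pointwise

variable {G : Type*} [AddCommGroup G]

/-- box of integer vectors -/
noncomputable def gapBox {k : ℕ} (L : Fin k → ℕ) : Finset (Fin k → ℤ) :=
  Fintype.piFinset fun i => Finset.Icc (-(L i : ℤ)) (L i : ℤ)

theorem gap_mem_box {k : ℕ} {L : Fin k → ℕ} {a : Fin k → ℤ} :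
    a ∈ gapBox L ↔ ∀ i, |a i| ≤ L i := by
  unfold gapBox
  rw [Fintype.mem_piFinset]
  simp only [Finset.mem_Icc, abs_le]

theorem gap_card_box {k : ℕ} (L : Fin k → ℕ) : (gapBox L).card = ∏ i, (2 * L i + 1) := by
  unfold gapBox
  rw [Fintype.card_piFinset]
  refine Finset.prod_congr rfl fun i _ => ?_
  rw [Int.card_Icc]
  omega

theorem gap_LL_mono {m : ℕ} (N : Seminorm ℝ (Fin m → ℝ)) {r s : ℝ} (h : r ≤ s) :
    LL N r ⊆ LL N s := fun _ hc => le_trans hc h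

theorem gap_LL_add {m : ℕ} (N : Seminorm ℝ (Fin m → ℝ)) {r s : ℝ} {c d : Fin m → ℤ}
    (hc : c ∈ LL N r) (hd : d ∈ LL N s) : c + d ∈ LL N (r + s) := by
  have h : (fun i => (((c + d) i : ℤ) : ℝ)) = (fun i => (c i : ℝ)) + fun i => (d i : ℝ) := by
    funext i; simp
  show N _ ≤ r + s
  rw [h]
  exact (map_add_le_add N _ _).trans (add_le_add hc hd)

theorem gap_LL_sub {m : ℕ} (N : Seminorm ℝ (Fin m → ℝ)) {r s : ℝ} {c d : Fin m → ℤ}
    (hc : c ∈ LL N r) (hd : d ∈ LL N s) : c - d ∈ LL N (r + s) := by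
  have h : (fun i => (((c - d) i : ℤ) : ℝ)) = (fun i => (c i : ℝ)) - fun i => (d i : ℝ) := by
    funext i; simp
  show N _ ≤ r + s
  rw [h]
  exact (map_sub_le_add N _ _).trans (add_le_add hc hd)

theorem gap_LL_eq_zero {m : ℕ} (N : Seminorm ℝ (Fin m → ℝ)) (hN : ∀ x, N x = 0 → x = 0)
    {c : Fin m → ℤ} (hc : c ∈ LL N 0) : c = 0 := by
  have h0 : N (fun i => (c i : ℝ)) = 0 := le_antisymm hc (apply_nonneg N _)
  have h := hN _ h0
  funext i
  have := congrFun h i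
  simpa using this

/-- `ψ` is injective on lattice points of norm at most `1/6`. -/
theorem gap_inj (S : Set (G →+ UnitAddCircle)) {m : ℕ} (N : Seminorm ℝ (Fin m → ℝ))
    (ψ : (Fin m → ℤ) →+ G) (hN : ∀ x, N x = 0 → x = 0)
    (h1 : ∀ c : Fin m → ℤ, N (fun i => (c i : ℝ)) < 1 / 2 → ∀ r : ℝ, 0 ≤ r →
        (ψ c ∈ bohr S r ↔ c ∈ LL N r)) : Set.InjOn ψ (LL N (1 / 6)) := by
  intro c hc d hd hcd
  have hsub := gap_LL_sub N hc hd
  have hlt : N (fun i => (((c - d) i : ℤ) : ℝ)) < 1 / 2 := lt_of_le_of_lt hsub (by norm_num)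
  have hz : ψ (c - d) ∈ bohr S 0 := by
    rw [map_sub, hcd, sub_self]
    intro γ _
    simp
  have := gap_LL_eq_zero N hN ((h1 _ hlt 0 le_rfl).1 hz)
  exact sub_eq_zero.1 this

theorem gap_map_mem (S : Set (G →+ UnitAddCircle)) {m : ℕ} (N : Seminorm ℝ (Fin m → ℝ))
    (ψ : (Fin m → ℤ) →+ G)
    (h1 : ∀ c : Fin m → ℤ, N (fun i => (c i : ℝ)) < 1 / 2 → ∀ r : ℝ, 0 ≤ r →
        (ψ c ∈ bohr S r ↔ c ∈ LL N r)) {r : ℝ} (hr0 : 0 ≤ r) (hr : r ≤ 1 / 6)
    {c : Fin m → ℤ} (hc : c ∈ LL N r) : ψ c ∈ bohr S r :=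
  (h1 c (lt_of_le_of_lt (le_trans hc hr) (by norm_num)) r hr0).2 hc

theorem gap_finite (S : Set (G →+ UnitAddCircle)) (hfin : (bohr S (1 / 6)).Finite)
    {m : ℕ} (N : Seminorm ℝ (Fin m → ℝ)) (ψ : (Fin m → ℤ) →+ G) (hN : ∀ x, N x = 0 → x = 0)
    (h1 : ∀ c : Fin m → ℤ, N (fun i => (c i : ℝ)) < 1 / 2 → ∀ r : ℝ, 0 ≤ r →
        (ψ c ∈ bohr S r ↔ c ∈ LL N r)) : (LL N (1 / 6)).Finite := by
  refine Set.Finite.of_finite_image (f := ψ) (hfin.subset ?_) (gap_inj S N ψ hN h1)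
  rintro _ ⟨c, hc, rfl⟩
  exact gap_map_mem S N ψ h1 (by norm_num) le_rfl hc

/-- small scales see at most the origin -/
theorem gap_exists_scale {m : ℕ} (N : Seminorm ℝ (Fin m → ℝ)) (hN : ∀ x, N x = 0 → x = 0)
    {ρ : ℝ} (hρ0 : 0 < ρ) (hfin : (LL N ρ).Finite) {n : ℕ} (hn : 1 ≤ n) :
    ∃ j : ℕ, (LL N (ρ / 2 ^ j)).ncard ≤ n := by
  have hev : ∀ᶠ j : ℕ in Filter.atTop, ∀ c ∈ LL N ρ \ {0}, ρ / 2 ^ j < N (fun i => (c i : ℝ)) := by
    rw [Filter.eventually_all_finite (hfin.subset Set.sdiff_subset)]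
    intro c hc
    have hpos : 0 < N (fun i => (c i : ℝ)) := by
      refine lt_of_le_of_ne (apply_nonneg N _) fun h => hc.2 ?_
      exact gap_LL_eq_zero N hN (c := c) h.symm.le
    have ht : Filter.Tendsto (fun j : ℕ => ρ / 2 ^ j) Filter.atTop (nhds 0) := by
      have := (tendsto_pow_atTop_nhds_zero_of_lt_one (r := (1 / 2 : ℝ)) (by norm_num)
        (by norm_num)).const_mul ρ
      rw [mul_zero] at this
      refine this.congr fun j => ?_
      rw [one_div, inv_pow, div_eq_mul_inv]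
    exact ht.eventually (gt_mem_nhds hpos)
  obtain ⟨j, hj⟩ := hev.exists
  refine ⟨j, le_trans ?_ hn⟩
  have hsub : LL N (ρ / 2 ^ j) ⊆ {0} := by
    intro c hc
    by_contra h0
    have hle : ρ / 2 ^ j ≤ ρ := div_le_self hρ0.le (one_le_pow₀ (by norm_num))
    exact absurd hc (not_le.2 (hj c ⟨gap_LL_mono N hle hc, h0⟩))
  calc (LL N (ρ / 2 ^ j)).ncard ≤ ({0} : Set (Fin m → ℤ)).ncard :=
        Set.ncard_le_ncard hsub (Set.finite_singleton _)
    _ = 1 := Set.ncard_singleton _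

theorem gap_pow_le {k m : ℕ} (h : k ≤ m) :
    (12 * (k : ℝ) ^ 3) ^ k ≤ (12 * (m : ℝ) ^ 3) ^ m := by
  rcases Nat.eq_zero_or_pos k with rfl | hk
  · rcases Nat.eq_zero_or_pos m with rfl | hm
    · simp
    · rw [pow_zero]
      have : (1 : ℝ) ≤ m := by exact_mod_cast hm
      have h3 : (1 : ℝ) ≤ (m : ℝ) ^ 3 := one_le_pow₀ this
      exact one_le_pow₀ (by linarith)
  · have h1 : (1 : ℝ) ≤ m := by exact_mod_cast le_trans hk h
    have h3 : (1 : ℝ) ≤ (m : ℝ) ^ 3 := one_le_pow₀ h1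
    have hkm : (k : ℝ) ≤ m := by exact_mod_cast h
    calc (12 * (k : ℝ) ^ 3) ^ k ≤ (12 * (m : ℝ) ^ 3) ^ k := by gcongr
      _ ≤ (12 * (m : ℝ) ^ 3) ^ m := pow_le_pow_right₀ (by linarith) h

/-- Final geometric step, GAP version. -/
theorem gap_final (S : Set (G →+ UnitAddCircle)) (hfin : (bohr S (1 / 6)).Finite)
    {A : Finset G} (hA : A.Nonempty) {V : ℝ} (hV : 1 ≤ V)
    (hsize : ((bohr S (1 / 6)).ncard : ℝ) ≤ V * A.card)
    {ρ : ℝ} (hρ0 : 0 < ρ) (hρ : ρ ≤ 1 / 12) {X : Finset G}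
    (hX : ∀ a ∈ A, ∃ x ∈ X, a - x ∈ bohr S ρ)
    {m : ℕ} (N : Seminorm ℝ (Fin m → ℝ)) (ψ : (Fin m → ℤ) →+ G) (hN : ∀ x, N x = 0 → x = 0)
    (h1 : ∀ c : Fin m → ℤ, N (fun i => (c i : ℝ)) < 1 / 2 → ∀ r : ℝ, 0 ≤ r →
        (ψ c ∈ bohr S r ↔ c ∈ LL N r))
    (h2 : ∀ x ∈ bohr S ρ, ∃ c ∈ LL N ρ, x - ψ c ∈ ann S) (htriv : ann S = ⊥) :
    ∃ (k : ℕ) (v : Fin k → G) (L : Fin k → ℕ) (T : Finset G), k ≤ m ∧
      (∀ a b : Fin k → ℤ, (∀ i, |a i| ≤ L i) → (∀ i, |b i| ≤ L i) →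
        ∑ i, a i • v i = ∑ i, b i • v i → a = b) ∧
      ∏ i, (2 * L i + 1) ≤ A.card ∧
      (T.card : ℝ) ≤ X.card * (V * (4 * m + 1) ^ m * (12 * m ^ 3) ^ m) ∧
      ∀ a ∈ A, ∃ t ∈ T, ∃ c : Fin k → ℤ, (∀ i, |c i| ≤ L i) ∧ a = t + ∑ i, c i • v i := by
  classical
  have hinj := gap_inj S N ψ hN h1
  have hLfin := gap_finite S hfin N ψ hN h1
  have hfinr : ∀ r : ℝ, r ≤ 1 / 6 → (LL N r).Finite := fun r hr =>
    hLfin.subset (gap_LL_mono N hr)
  -- choice of the scale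
  have hex := gap_exists_scale N hN hρ0 (hfinr ρ (by linarith)) (n := A.card)
    (Finset.card_pos.2 hA)
  set j := Nat.find hex with hjdef
  have hj : (LL N (ρ / 2 ^ j)).ncard ≤ A.card := Nat.find_spec hex
  set r : ℝ := ρ / 2 ^ j with hrdef
  have hr0 : 0 ≤ r := by positivity
  have hrρ : r ≤ ρ := div_le_self hρ0.le (one_le_pow₀ (by norm_num))
  have hr6 : r ≤ 1 / 6 := by linarith
  obtain ⟨k, v', L, hkm, hlin, hgap, hcard⟩ := discrete_john N hr0 (hfinr r hr6)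
  -- the linear map
  have hψ : ∀ a : Fin k → ℤ, ψ (∑ i, a i • v' i) = ∑ i, a i • ψ (v' i) := by
    intro a
    rw [map_sum]
    exact Finset.sum_congr rfl fun i _ => map_zsmul ψ _ _
  have hlin' : ∀ a b : Fin k → ℤ, ∑ i, a i • v' i = ∑ i, b i • v' i → a = b := by
    intro a b hab
    have h0 : ∑ i, (a i - b i) • v' i = 0 := by
      simp only [sub_smul, Finset.sum_sub_distrib]
      rw [hab, sub_self]
    have := Fintype.linearIndependent_iff.1 hlin (fun i => a i - b i) h0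
    funext i
    exact sub_eq_zero.1 (this i)
  have hproper : ∀ a b : Fin k → ℤ, (∀ i, |a i| ≤ L i) → (∀ i, |b i| ≤ L i) →
        ∑ i, a i • ψ (v' i) = ∑ i, b i • ψ (v' i) → a = b := by
    intro a b ha hb hab
    rw [← hψ, ← hψ] at hab
    exact hlin' a b (hinj (gap_LL_mono N hr6 (hgap a ha)) (gap_LL_mono N hr6 (hgap b hb)) hab)
  -- number of elements of the progression
  have hprod : ∏ i, (2 * L i + 1) ≤ A.card := by
    rw [← gap_card_box]
    refine le_trans ?_ hj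
    have himg : ((fun a : Fin k → ℤ => ∑ i, a i • v' i) '' (gapBox L : Set (Fin k → ℤ)))
        ⊆ LL N r := by
      rintro _ ⟨a, ha, rfl⟩
      exact hgap a (gap_mem_box.1 ha)
    have hc := Set.ncard_le_ncard himg (hfinr r hr6)
    rw [Set.ncard_image_of_injective _ (fun a b h => hlin' a b h), Set.ncard_coe_finset] at hc
    exact hc
  -- the half progression
  set f : (Fin k → ℤ) → G := fun a => ∑ i, a i • ψ (v' i) with hf
  set L' : Fin k → ℕ := fun i => L i / 2 with hL'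
  set Q : Finset G := (gapBox L').image f with hQ
  have hL'L : ∀ i, L' i ≤ L i := fun i => Nat.div_le_self _ _
  have hQcard : Q.card = ∏ i, (2 * L' i + 1) := by
    rw [← gap_card_box, hQ, Finset.card_image_of_injOn]
    intro a ha b hb hab
    refine hproper a b (fun i => ?_) (fun i => ?_) hab
    · exact (gap_mem_box.1 ha i).trans (by exact_mod_cast hL'L i)
    · exact (gap_mem_box.1 hb i).trans (by exact_mod_cast hL'L i)
  have hQpos : Q.Nonempty := by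
    rw [← Finset.card_pos, hQcard]
    exact Finset.prod_pos fun i _ => by omega
  have hQge : (∏ i, (2 * L i + 1) : ℕ) ≤ 3 ^ k * Q.card := by
    rw [hQcard]
    calc (∏ i, (2 * L i + 1) : ℕ) ≤ ∏ i, (3 * (2 * L' i + 1)) :=
          Finset.prod_le_prod' fun i _ => by
            have : L i / 2 = L' i := rfl
            omega
      _ = 3 ^ k * ∏ i, (2 * L' i + 1) := by
          rw [Finset.prod_mul_distrib, Finset.prod_const, Finset.card_univ, Fintype.card_fin]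
  have hQmem : ∀ q ∈ Q, ∃ c ∈ LL N r, ψ c = q := by
    intro q hq
    obtain ⟨a, ha, rfl⟩ := Finset.mem_image.1 hq
    refine ⟨∑ i, a i • v' i, hgap a fun i => ?_, hψ a⟩
    exact (gap_mem_box.1 ha i).trans (by exact_mod_cast hL'L i)
  -- the Bohr set
  have hBfin : (bohr S ρ).Finite :=
    hfin.subset fun x hx γ hγ => (hx γ hγ).trans (by linarith)
  set B : Finset G := hBfin.toFinset with hB
  have hBmem : ∀ b ∈ B, ∃ c ∈ LL N ρ, ψ c = b := by
    intro b hb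
    obtain ⟨c, hc, hbc⟩ := h2 b (by simpa [hB] using hb)
    rw [htriv, AddSubgroup.mem_bot, sub_eq_zero] at hbc
    exact ⟨c, hc, hbc.symm⟩
  -- the sumset
  have hBQ : ∀ z ∈ B + Q, ∃ c ∈ LL N (ρ + r), ψ c = z := by
    intro z hz
    obtain ⟨b, hb, q, hq, rfl⟩ := Finset.mem_add.1 hz
    obtain ⟨c, hc, rfl⟩ := hBmem b hb
    obtain ⟨d, hd, rfl⟩ := hQmem q hq
    exact ⟨c + d, gap_LL_add N hc hd, map_add ψ c d⟩
  have hBQle : ∀ s : ℝ, ρ + r ≤ s → s ≤ 1 / 6 → (B + Q).card ≤ (LL N s).ncard := by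
    intro s hs hs6
    have hsub : ((B + Q : Finset G) : Set G) ⊆ ψ '' LL N s := by
      intro z hz
      obtain ⟨c, hc, rfl⟩ := hBQ z hz
      exact ⟨c, gap_LL_mono N hs hc, rfl⟩
    calc (B + Q).card = ((B + Q : Finset G) : Set G).ncard := (Set.ncard_coe_finset _).symm
      _ ≤ (ψ '' LL N s).ncard := Set.ncard_le_ncard hsub ((hfinr s hs6).image _)
      _ ≤ (LL N s).ncard := Set.ncard_image_le (hfinr s hs6)
  have hcardLL : ∀ s : ℝ, s ≤ 1 / 6 → (LL N s).ncard ≤ (bohr S (1 / 6)).ncard := by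
    intro s hs
    calc (LL N s).ncard = (ψ '' LL N s).ncard :=
          (Set.InjOn.ncard_image (hinj.mono (gap_LL_mono N hs))).symm
      _ ≤ (bohr S (1 / 6)).ncard := by
          refine Set.ncard_le_ncard ?_ hfin
          rintro _ ⟨c, hc, rfl⟩
          exact gap_map_mem S N ψ h1 (by norm_num) le_rfl (gap_LL_mono N hs hc)
  -- size bounds
  have hkey1 : ((LL N r).ncard : ℝ) ≤ (12 * (m : ℝ) ^ 3) ^ m * Q.card := by
    have hc1 : ((LL N r).ncard : ℝ) ≤ (4 * (k : ℝ) ^ 3) ^ k * (3 ^ k * Q.card) := by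
      calc ((LL N r).ncard : ℝ) ≤ (((4 * k ^ 3) ^ k * ∏ i, (2 * L i + 1) : ℕ) : ℝ) := by
            exact_mod_cast hcard
        _ ≤ (((4 * k ^ 3) ^ k * (3 ^ k * Q.card) : ℕ) : ℝ) := by
            exact_mod_cast Nat.mul_le_mul_left _ hQge
        _ = (4 * (k : ℝ) ^ 3) ^ k * (3 ^ k * Q.card) := by push_cast; ring
    calc ((LL N r).ncard : ℝ) ≤ (4 * (k : ℝ) ^ 3) ^ k * (3 ^ k * Q.card) := hc1
      _ = (12 * (k : ℝ) ^ 3) ^ k * Q.card := by
          rw [← mul_assoc, ← mul_pow]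
          ring_nf
      _ ≤ (12 * (m : ℝ) ^ 3) ^ m * Q.card := by
          have := gap_pow_le hkm
          gcongr
  have hdbl : ((LL N (2 * r)).ncard : ℝ) ≤ (4 * (m : ℝ) + 1) ^ m * (LL N r).ncard := by
    have h := doubling N (r := 2 * r) (by positivity) (hfinr _ (by linarith))
    rw [mul_div_cancel_left₀ r (two_ne_zero)] at h
    exact_mod_cast h
  have hM1 : (0 : ℝ) ≤ (4 * (m : ℝ) + 1) ^ m := by positivity
  have hkey2 : ((LL N (2 * r)).ncard : ℝ) ≤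
      (4 * (m : ℝ) + 1) ^ m * ((12 * (m : ℝ) ^ 3) ^ m * Q.card) :=
    hdbl.trans (mul_le_mul_of_nonneg_left hkey1 hM1)
  have hK : (((B + Q).card : ℕ) : ℝ) ≤
      (V * (4 * (m : ℝ) + 1) ^ m * (12 * (m : ℝ) ^ 3) ^ m) * Q.card := by
    rcases Nat.eq_zero_or_pos j with hj0 | hjpos
    · have hreq : r = ρ := by rw [hrdef, hj0, pow_zero, div_one]
      have hb : (((B + Q).card : ℕ) : ℝ) ≤ (LL N (2 * r)).ncard := by
        exact_mod_cast hBQle (2 * r) (by rw [hreq]; linarith) (by rw [hreq]; linarith)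
      have hnn : (0 : ℝ) ≤ (4 * (m : ℝ) + 1) ^ m * ((12 * (m : ℝ) ^ 3) ^ m * Q.card) := by
        positivity
      calc (((B + Q).card : ℕ) : ℝ)
          ≤ (4 * (m : ℝ) + 1) ^ m * ((12 * (m : ℝ) ^ 3) ^ m * Q.card) := hb.trans hkey2
        _ ≤ V * ((4 * (m : ℝ) + 1) ^ m * ((12 * (m : ℝ) ^ 3) ^ m * Q.card)) :=
            le_mul_of_one_le_left hnn hV
        _ = _ := by ring
    · have hlt : A.card < (LL N (2 * r)).ncard := by
        have hmin := Nat.find_min hex (m := j - 1) (by omega)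
        rw [not_le] at hmin
        have : ρ / 2 ^ (j - 1) = 2 * r := by
          rw [hrdef]
          obtain ⟨i, hi⟩ : ∃ i, j = i + 1 := ⟨j - 1, by omega⟩
          rw [hi, Nat.add_sub_cancel, pow_succ]
          field_simp
        rwa [this] at hmin
      have hb : (((B + Q).card : ℕ) : ℝ) ≤ (bohr S (1 / 6)).ncard := by
        exact_mod_cast (hBQle (1 / 6) (by linarith) le_rfl).trans (hcardLL (1 / 6) le_rfl)
      have hA' : (A.card : ℝ) ≤ (LL N (2 * r)).ncard := by exact_mod_cast hlt.le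
      calc (((B + Q).card : ℕ) : ℝ) ≤ V * A.card := hb.trans hsize
        _ ≤ V * ((4 * (m : ℝ) + 1) ^ m * ((12 * (m : ℝ) ^ 3) ^ m * Q.card)) := by
            have := hA'.trans hkey2
            exact mul_le_mul_of_nonneg_left this (by linarith)
        _ = _ := by ring
  obtain ⟨Y, hYB, hYcard, hYcov⟩ := Finset.ruzsa_covering_add hQpos hK
  refine ⟨k, fun i => ψ (v' i), L, X + Y, hkm, hproper, hprod, ?_, ?_⟩
  · calc (((X + Y).card : ℕ) : ℝ) ≤ X.card * Y.card := by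
          exact_mod_cast Finset.card_add_le
      _ ≤ X.card * (V * (4 * m + 1) ^ m * (12 * m ^ 3) ^ m) := by gcongr
  · intro a ha
    obtain ⟨x, hx, hax⟩ := hX a ha
    have hB' : a - x ∈ B := by simpa [hB] using hax
    obtain ⟨y, hy, d, hd, hyd⟩ := Finset.mem_add.1 (hYcov hB')
    obtain ⟨q, hq, q', hq', hqq⟩ := Finset.mem_sub.1 hd
    obtain ⟨c, hc, rfl⟩ := Finset.mem_image.1 hq
    obtain ⟨c', hc', rfl⟩ := Finset.mem_image.1 hq'
    refine ⟨x + y, Finset.add_mem_add hx hy, fun i => c i - c' i, fun i => ?_, ?_⟩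
    · have h3 := gap_mem_box.1 hc i
      have h4 := gap_mem_box.1 hc' i
      have h5 : (L' i : ℤ) + L' i ≤ L i := by
        have : L i / 2 = L' i := rfl
        omega
      calc |c i - c' i| ≤ |c i| + |c' i| := abs_sub _ _
        _ ≤ L i := by linarith
    · have : ∑ i, (c i - c' i) • ψ (v' i) = f c - f c' := by
        simp only [hf, sub_smul, Finset.sum_sub_distrib]
      rw [this, hqq]
      rw [add_assoc, hyd]
      abel

end H112
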