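import Pool.Agent.H112R2.Near
import Pool.Agent.H112R2.Resid
set_option autoImplicit false

/-! Module C: size of the Bohr set of the large spectrum. -/

namespace H112

open Finset

variable {G : Type*} [AddCommGroup G]

/-! ### auxiliary facts about `ee` and `ft` -/

theorem Fourier_ee_zero : ee 0 = 1 := by
  simp [ee]

theorem Fourier_ee_add (s t : UnitAddCircle) : ee (s + t) = ee s * ee t := by
  simp [ee, AddCircle.toCircle_add]

theorem Fourier_norm_ee (t : UnitAddCircle) : ‖ee t‖ = 1 := by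
  simp [ee]

theorem Fourier_ft_sum {Q : Type} [AddCommGroup Q] [Fintype Q] (f : AddMonoidAlgebra ℝ Q)
    (γ : Q →+ UnitAddCircle) : ft f γ = ∑ y, (f.coeff y : ℂ) * ee (γ y) := by
  rw [ft]
  exact Finsupp.sum_fintype _ _ (by intro i; simp)

/-- every complex character of a finite group is of the form `ee ∘ γ` -/
theorem Fourier_exists_char {Q : Type} [AddCommGroup Q] [Fintype Q] (χ : AddChar Q ℂ) :
    ∃ γ : Q →+ UnitAddCircle, ∀ x, ee (γ x) = χ x := by
  let e := AddCircle.homeomorphCircle (one_ne_zero : (1 : ℝ) ≠ 0)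
  have he : ∀ t, e t = AddCircle.toCircle t :=
    fun t => AddCircle.homeomorphCircle_apply one_ne_zero t
  let ψ : AddChar Q Circle := AddChar.circleEquivComplex.symm χ
  have hψ : ∀ x, ((ψ x : Circle) : ℂ) = χ x := by
    intro x
    have : AddChar.circleEquivComplex ψ = χ := by simp [ψ]
    rw [← this]
    rfl
  refine ⟨AddMonoidHom.mk' (fun x => e.symm (ψ x)) ?_, ?_⟩
  · intro a b
    apply e.injective
    rw [he (_ + _), AddCircle.toCircle_add, ← he, ← he]
    simp [AddChar.map_add_eq_mul]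
  · intro x
    rw [ee, AddMonoidHom.mk'_apply, ← he, Homeomorph.apply_symm_apply, hψ]


theorem Fourier_conj_char {Q : Type} [AddCommGroup Q] [Fintype Q] (χ : AddChar Q ℂ) (x : Q) :
    (starRingEnd ℂ) (χ x) = χ (-x) := by
  rw [← AddChar.map_neg_eq_conj]

/-- Fourier inversion, in terms of a choice of `γ` for every character -/
theorem Fourier_inversion {Q : Type} [AddCommGroup Q] [Fintype Q] (f : AddMonoidAlgebra ℝ Q)
    (g : AddChar Q ℂ → (Q →+ UnitAddCircle)) (hg : ∀ χ x, ee (g χ x) = χ x) (x : Q) :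
    ((Fintype.card Q : ℝ) : ℂ) * (f.coeff x : ℂ) = ∑ χ : AddChar Q ℂ, χ (-x) * ft f (g χ) := by
  classical
  simp only [Fourier_ft_sum, hg, Finset.mul_sum]
  rw [Finset.sum_comm]
  have h1 : ∀ y : Q, ∑ χ : AddChar Q ℂ, χ (-x) * ((f.coeff y : ℂ) * χ y) =
      (f.coeff y : ℂ) * (if y - x = 0 then (Fintype.card Q : ℂ) else 0) := by
    intro y
    rw [← AddChar.sum_apply_eq_ite, Finset.mul_sum]
    refine Finset.sum_congr rfl fun χ _ => ?_
    rw [sub_eq_add_neg, AddChar.map_add_eq_mul]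
    ring
  rw [Finset.sum_congr rfl fun y _ => h1 y]
  simp only [sub_eq_zero, mul_ite, mul_zero]
  rw [Finset.sum_ite_eq' Finset.univ x]
  simp [mul_comm]

/-- real form -/
theorem Fourier_inversion_re {Q : Type} [AddCommGroup Q] [Fintype Q] (f : AddMonoidAlgebra ℝ Q)
    (g : AddChar Q ℂ → (Q →+ UnitAddCircle)) (hg : ∀ χ x, ee (g χ x) = χ x)
    (w : AddChar Q ℂ → ℝ) (hw : ∀ χ, ft f (g χ) = (w χ : ℂ)) (x : Q) :
    (Fintype.card Q : ℝ) * f.coeff x = ∑ χ : AddChar Q ℂ, (ee (g χ x)).re * w χ := by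
  have h := congrArg Complex.re (Fourier_inversion f g hg x)
  rw [← Complex.ofReal_mul, Complex.ofReal_re, Complex.re_sum] at h
  rw [h]
  refine Finset.sum_congr rfl fun χ _ => ?_
  rw [hw, Complex.re_mul_ofReal, hg, ← Fourier_conj_char, Complex.conj_re]

theorem Fourier_U_refl_zero {Q : Type*} [AddCommGroup Q] {A : Finset Q} (hA : A.Nonempty) :
    (U A * refl (U A)).coeff 0 = (A.card : ℝ)⁻¹ := by
  classical
  rw [AddMonoidAlgebra.coeff_mul_apply_left]
  have h1 : ∀ a, (U A).coeff a = if a ∈ A then (A.card : ℝ)⁻¹ else 0 := by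
    intro a
    simp [U, unif]
  have h2 : ∀ a, (refl (U A)).coeff (-a + 0) = if a ∈ A then (A.card : ℝ)⁻¹ else 0 := by
    intro a
    rw [refl, AddMonoidAlgebra.coeff_ofCoeff, add_zero,
      Finsupp.mapDomain_apply neg_injective, h1]
  rw [Finsupp.sum_of_support_subset (s := A)]
  · simp only [h2]
    rw [Finset.sum_congr rfl (g := fun _ => (A.card : ℝ)⁻¹ * (A.card : ℝ)⁻¹)]
    · rw [Finset.sum_const, nsmul_eq_mul, ← mul_assoc, mul_inv_cancel₀, one_mul]
      exact_mod_cast hA.card_pos.ne'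
    · intro a ha
      rw [h1, if_pos ha]
  · intro a ha
    rw [Finsupp.mem_support_iff, h1] at ha
    by_contra hh
    exact ha (if_neg hh)
  · intro i _
    simp


/-- Fourier analysis on a finite group: let `f = (u * ǔ) * (r * ř)^m` with `u` uniform on `A`;
if `Re e(γ x) ≥ 1/2` for all `γ` with `|r̂(γ)| ≥ 1/2` and `4^{-m} ≤ f(0)|A|/4` then
`f(x) ≥ f(0)/8`. -/
theorem finite_case {Q : Type} [AddCommGroup Q] [Fintype Q] {A : Finset Q} (hA : A.Nonempty)
    {r : AddMonoidAlgebra ℝ Q} (hr : Law r) {m : ℕ}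
    (h4 : (1 / 4 : ℝ) ^ m ≤
      (U A * refl (U A) * (r * refl r) ^ m).coeff 0 * A.card / 4)
    (x : Q) (hx : ∀ γ : Q →+ UnitAddCircle, 1 / 2 ≤ ‖ft r γ‖ → 1 / 2 ≤ (ee (γ x)).re) :
    (U A * refl (U A) * (r * refl r) ^ m).coeff 0 / 8 ≤
      (U A * refl (U A) * (r * refl r) ^ m).coeff x := by
  classical
  choose g hg using (Fourier_exists_char (Q := Q))
  set f := U A * refl (U A) * (r * refl r) ^ m with hf
  set N : ℝ := (Fintype.card Q : ℝ) with hN
  have hNpos : 0 < N := by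
    rw [hN]
    exact_mod_cast Fintype.card_pos
  -- the weights
  let a : AddChar Q ℂ → ℝ := fun χ => ‖ft (U A) (g χ)‖ ^ 2
  let b : AddChar Q ℂ → ℝ := fun χ => ‖ft r (g χ)‖ ^ 2
  have ha0 : ∀ χ, 0 ≤ a χ := fun χ => by positivity
  have hb0 : ∀ χ, 0 ≤ b χ := fun χ => by positivity
  have hwu : ∀ χ, ft (U A * refl (U A)) (g χ) = ((a χ : ℝ) : ℂ) := by
    intro χ
    rw [ft_mul, ft_refl, Complex.mul_conj, Complex.normSq_eq_norm_sq]
  have hwf : ∀ χ, ft f (g χ) = ((a χ * b χ ^ m : ℝ) : ℂ) := by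
    intro χ
    rw [hf, ft_mul, hwu, ft_pow, ft_mul, ft_refl, Complex.mul_conj, Complex.normSq_eq_norm_sq]
    simp [b]
  have hu := Fourier_inversion_re (U A * refl (U A)) g hg a hwu 0
  have hf0 := Fourier_inversion_re f g hg _ hwf 0
  have hfx := Fourier_inversion_re f g hg _ hwf x
  simp only [map_zero, Fourier_ee_zero, Complex.one_re, one_mul] at hu hf0
  rw [Fourier_U_refl_zero hA] at hu
  -- pointwise inequality
  have hkey : ∀ χ, (a χ * b χ ^ m) / 2 - 3 / 2 * ((1 / 4 : ℝ) ^ m * a χ) ≤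
      (ee (g χ x)).re * (a χ * b χ ^ m) := by
    intro χ
    have hw0 : 0 ≤ a χ * b χ ^ m := mul_nonneg (ha0 χ) (pow_nonneg (hb0 χ) m)
    have hq0 : 0 ≤ (1 / 4 : ℝ) ^ m * a χ := mul_nonneg (by positivity) (ha0 χ)
    by_cases h : 1 / 2 ≤ ‖ft r (g χ)‖
    · have := hx _ h
      nlinarith
    · push Not at h
      have hre : -1 ≤ (ee (g χ x)).re := by
        have h1 := Complex.abs_re_le_norm (ee (g χ x))
        rw [Fourier_norm_ee] at h1
        exact (abs_le.mp h1).1
      have hb : b χ ≤ 1 / 4 := by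
        have h0 := norm_nonneg (ft r (g χ))
        simp only [b]
        nlinarith
      have hbm : b χ ^ m ≤ (1 / 4 : ℝ) ^ m := pow_le_pow_left₀ (hb0 χ) hb m
      have hab : a χ * b χ ^ m ≤ (1 / 4 : ℝ) ^ m * a χ := by
        rw [mul_comm]
        exact mul_le_mul_of_nonneg_right hbm (ha0 χ)
      nlinarith
  have hsum := Finset.sum_le_sum fun χ (_ : χ ∈ (Finset.univ : Finset (AddChar Q ℂ))) => hkey χ
  rw [← hfx, Finset.sum_sub_distrib, ← Finset.sum_div, ← hf0, ← Finset.mul_sum,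
    ← Finset.mul_sum, ← hu] at hsum
  have hcard : (0 : ℝ) < A.card := by exact_mod_cast hA.card_pos
  have h5 : (1 / 4 : ℝ) ^ m * (A.card : ℝ)⁻¹ ≤ f.coeff 0 / 4 := by
    rw [← div_eq_mul_inv, div_le_iff₀ hcard]
    linarith
  have h6 : N * (f.coeff 0 / 8) ≤ N * f.coeff x := by
    have h7 : N * ((1 / 4 : ℝ) ^ m * (A.card : ℝ)⁻¹) ≤ N * (f.coeff 0 / 4) :=
      mul_le_mul_of_nonneg_left h5 hNpos.le
    have h8 : (3 / 2 : ℝ) * ((1 / 4 : ℝ) ^ m * (N * (A.card : ℝ)⁻¹)) =
      3 / 2 * (N * ((1 / 4 : ℝ) ^ m * (A.card : ℝ)⁻¹)) := by ring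
    rw [h8] at hsum
    linarith
  exact le_of_mul_le_mul_left h6 hNpos


/-! ### push-forward along a homomorphism -/

section Push

variable {Q : Type} [AddCommGroup Q] (π : G →+ Q)

theorem Fourier_push_refl (f : AddMonoidAlgebra ℝ G) :
    AddMonoidAlgebra.mapDomain π (refl f) = refl (AddMonoidAlgebra.mapDomain π f) := by
  ext : 1
  simp only [refl, AddMonoidAlgebra.coeff_mapDomain, AddMonoidAlgebra.coeff_ofCoeff,
    ← Finsupp.mapDomain_comp]
  congr 1
  funext x
  simp

theorem Fourier_push_ft (f : AddMonoidAlgebra ℝ G) (γ : Q →+ UnitAddCircle) :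
    ft (AddMonoidAlgebra.mapDomain π f) γ = ft f (γ.comp π) := by
  rw [ft, ft, AddMonoidAlgebra.coeff_mapDomain, Finsupp.sum_mapDomain_index]
  · rfl
  · intro b
    simp
  · intro b m n
    push_cast
    ring

theorem Fourier_push_law {f : AddMonoidAlgebra ℝ G} (hf : Law f) :
    Law (AddMonoidAlgebra.mapDomain π f) := by
  classical
  constructor
  · intro x
    rw [AddMonoidAlgebra.coeff_mapDomain, Finsupp.mapDomain, Finsupp.sum_apply]
    refine Finset.sum_nonneg fun i _ => ?_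
    simp only [Finsupp.single_apply]
    split_ifs
    · exact hf.1 i
    · exact le_rfl
  · rw [AddMonoidAlgebra.coeff_mapDomain, Finsupp.sum_mapDomain_index]
    · exact hf.2
    · intro b
      rfl
    · intro b m n
      rfl

theorem Fourier_unif_eq {α : Type*} (A : Finset α) :
    unif A = ∑ a ∈ A, Finsupp.single a (A.card : ℝ)⁻¹ := by
  classical
  ext x
  rw [Finsupp.finsetSum_apply]
  simp only [Finsupp.single_apply, Finset.sum_ite_eq']
  simp [unif]

theorem Fourier_push_U [DecidableEq Q] {A : Finset G} (h : Set.InjOn π A) :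
    AddMonoidAlgebra.mapDomain π (U A) = U (A.image π) := by
  ext : 1
  rw [AddMonoidAlgebra.coeff_mapDomain, U, U, AddMonoidAlgebra.coeff_ofCoeff,
    AddMonoidAlgebra.coeff_ofCoeff, Fourier_unif_eq, Fourier_unif_eq, Finset.sum_image h,
    Finset.card_image_of_injOn h, Finsupp.mapDomain_finsetSum]
  simp only [Finsupp.mapDomain_single]

theorem Fourier_push_apply {f : AddMonoidAlgebra ℝ G} {S : Set G}
    (hS : (f.coeff.support : Set G) ⊆ S) (h : Set.InjOn π S) {z : G} (hz : z ∈ S) :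
    (AddMonoidAlgebra.mapDomain π f).coeff (π z) = f.coeff z := by
  rw [AddMonoidAlgebra.coeff_mapDomain]
  exact Finsupp.mapDomain_apply' S f.coeff hS h hz

end Push

theorem Fourier_push_pow {Q : Type} [AddCommGroup Q] (π : G →+ Q) (f : AddMonoidAlgebra ℝ G)
    (m : ℕ) : AddMonoidAlgebra.mapDomain π (f ^ m) = (AddMonoidAlgebra.mapDomain π f) ^ m := by
  induction m with
  | zero => simp
  | succ n ih => rw [pow_succ, pow_succ, AddMonoidAlgebra.mapDomain_mul, ih]

/-- `‖t‖ ≤ 1/6` implies `Re e(t) ≥ 1/2` -/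
theorem Fourier_re_ee {t : UnitAddCircle} (ht : ‖t‖ ≤ 1 / 6) : 1 / 2 ≤ (ee t).re := by
  induction t using QuotientAddGroup.induction_on with
  | H t =>
    have h1 : ((t : ℝ) : UnitAddCircle) = ((t - round t : ℝ) : UnitAddCircle) := by
      rw [AddCircle.coe_sub]
      have : ((round t : ℝ) : UnitAddCircle) = 0 := by
        rw [AddCircle.coe_eq_zero_iff]
        exact ⟨round t, by simp⟩
      rw [this, sub_zero]
    have h2 : ‖((t : ℝ) : UnitAddCircle)‖ = |t - round t| := by
      rw [UnitAddCircle.norm_eq]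
    have h3 : |t - round t| ≤ 1 / 6 := by
      rw [← h2]
      exact ht
    change 1 / 2 ≤ (ee ((t : ℝ) : UnitAddCircle)).re
    rw [h1, ee, AddCircle.toCircle_apply_mk, Circle.coe_exp, Complex.exp_ofReal_mul_I_re]
    rw [← Real.cos_abs, ← Real.cos_pi_div_three]
    refine Real.cos_le_cos_of_nonneg_of_le_pi (abs_nonneg _) ?_ ?_
    · have := Real.pi_pos
      linarith
    · rw [abs_mul, div_one, abs_of_pos (by positivity : (0 : ℝ) < 2 * Real.pi)]
      have := Real.pi_pos
      nlinarith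

/-- the same in a finitely generated group -/
theorem fg_case [AddGroup.FG G] {A : Finset G} (hA : A.Nonempty)
    {r : AddMonoidAlgebra ℝ G} (hr : Law r) {m : ℕ}
    (h4 : (1 / 4 : ℝ) ^ m ≤
      (U A * refl (U A) * (r * refl r) ^ m).coeff 0 * A.card / 4)
    (x : G) (hx : x ∈ bohr {γ | 1 / 2 ≤ ‖ft r γ‖} (1 / 6)) :
    (U A * refl (U A) * (r * refl r) ^ m).coeff 0 / 8 ≤
      (U A * refl (U A) * (r * refl r) ^ m).coeff x := by
  classical
  set f := U A * refl (U A) * (r * refl r) ^ m with hf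
  obtain ⟨Q, _, _, π, hπ⟩ := exists_finite_quotient G (A ∪ f.coeff.support ∪ {0, x})
  have hinjA : Set.InjOn π A := hπ.mono (by
    intro z hz
    simp only [Finset.coe_union, Set.mem_union]
    exact Or.inl (Or.inl hz))
  have hpush : AddMonoidAlgebra.mapDomain π f =
      U (A.image π) * refl (U (A.image π)) *
        (AddMonoidAlgebra.mapDomain π r * refl (AddMonoidAlgebra.mapDomain π r)) ^ m := by
    rw [hf, AddMonoidAlgebra.mapDomain_mul, AddMonoidAlgebra.mapDomain_mul, Fourier_push_pow,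
      AddMonoidAlgebra.mapDomain_mul, Fourier_push_refl, Fourier_push_refl,
      Fourier_push_U π hinjA]
  have hS : (f.coeff.support : Set G) ⊆ ((A ∪ f.coeff.support ∪ {0, x} : Finset G) : Set G) := by
    intro z hz
    simp only [Finset.coe_union, Set.mem_union]
    exact Or.inl (Or.inr hz)
  have h0 : (AddMonoidAlgebra.mapDomain π f).coeff 0 = f.coeff 0 := by
    have := Fourier_push_apply π (f := f) hS hπ (z := 0) (by simp)
    rwa [map_zero] at this
  have hxx : (AddMonoidAlgebra.mapDomain π f).coeff (π x) = f.coeff x :=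
    Fourier_push_apply π (f := f) hS hπ (z := x) (by simp)
  rw [hpush] at h0 hxx
  rw [← h0, ← hxx]
  refine finite_case (hA.image π) (Fourier_push_law π hr) ?_ (π x) ?_
  · rw [h0, Finset.card_image_of_injOn hinjA]
    exact h4
  · intro γ hγ
    rw [Fourier_push_ft] at hγ
    exact Fourier_re_ee (hx (γ.comp π) hγ)

/-- consequence: the Bohr set is finite and small -/
theorem bohr_finite [AddGroup.FG G] {A : Finset G} (hA : A.Nonempty)
    {r : AddMonoidAlgebra ℝ G} (hr : Law r) {m : ℕ}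
    (h4 : (1 / 4 : ℝ) ^ m ≤
      (U A * refl (U A) * (r * refl r) ^ m).coeff 0 * A.card / 4) :
    (bohr {γ : G →+ UnitAddCircle | 1 / 2 ≤ ‖ft r γ‖} (1 / 6)).Finite ∧
      ((bohr {γ : G →+ UnitAddCircle | 1 / 2 ≤ ‖ft r γ‖} (1 / 6)).ncard : ℝ) *
        (U A * refl (U A) * (r * refl r) ^ m).coeff 0 ≤ 8 := by
  classical
  have hkey := fg_case hA hr h4
  set f := U A * refl (U A) * (r * refl r) ^ m with hf
  set B := bohr {γ : G →+ UnitAddCircle | 1 / 2 ≤ ‖ft r γ‖} (1 / 6) with hB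
  have hcard : (0 : ℝ) < A.card := by exact_mod_cast hA.card_pos
  have hf0 : 0 < f.coeff 0 := by
    have h1 : (0 : ℝ) < (1 / 4 : ℝ) ^ m := by positivity
    have h2 : 0 < f.coeff 0 * A.card / 4 := lt_of_lt_of_le h1 h4
    have h3 : 0 < f.coeff 0 * A.card := by linarith
    exact (mul_pos_iff_of_pos_right hcard).mp h3
  have hsub : B ⊆ (f.coeff.support : Set G) := by
    intro x hx
    have := hkey x hx
    simp only [Finset.mem_coe, Finsupp.mem_support_iff]
    intro h0
    rw [h0] at this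
    linarith
  have hfin : B.Finite := f.coeff.support.finite_toSet.subset hsub
  refine ⟨hfin, ?_⟩
  have hlaw : Law f := by
    rw [hf]
    exact (((law_U hA).mul (law_U hA).refl)).mul ((hr.mul hr.refl).pow m)
  have h1 : ∑ x ∈ hfin.toFinset, f.coeff 0 / 8 ≤ ∑ x ∈ hfin.toFinset, f.coeff x :=
    Finset.sum_le_sum fun x hx => hkey x (hfin.mem_toFinset.mp hx)
  have h2 : ∑ x ∈ hfin.toFinset, f.coeff x ≤ 1 := by
    rw [← hlaw.2, Finsupp.sum]
    refine Finset.sum_le_sum_of_subset_of_nonneg ?_ fun i _ _ => hlaw.1 i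
    intro x hx
    exact hsub (hfin.mem_toFinset.mp hx)
  rw [Finset.sum_const, nsmul_eq_mul, ← Set.ncard_eq_toFinset_card B hfin] at h1
  linarith

end H112
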