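import Pool.Agent.H112R2.Tilt
set_option autoImplicit false

/-! Module A: a near-minimising pair has polynomial growth. -/

namespace H112

open Finset
open scoped Pointwise

variable {G : Type*} [AddCommGroup G]

/-- the functional `F(Y₁,Y₂) = H(Y₁+Y₂) - ((1+η)/2)(H(Y₁)+H(Y₂))` -/
noncomputable def FF (η : ℝ) (p₁ p₂ : AddMonoidAlgebra ℝ G) : ℝ :=
  H (p₁ * p₂) - (1 + η) / 2 * (H p₁ + H p₂)

theorem growth_FF_swap (η : ℝ) (p₁ p₂ : AddMonoidAlgebra ℝ G) : FF η p₁ p₂ = FF η p₂ p₁ := by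
  unfold FF
  rw [mul_comm p₁ p₂, add_comm (H p₁)]

/-- near minimisers exist -/
theorem exists_near_min {A : Finset G} (hA : A.Nonempty) {η δ : ℝ} (hη : 0 ≤ η) (hδ : 0 < δ) :
    ∃ p₁ p₂ : AddMonoidAlgebra ℝ G, Law p₁ ∧ Law p₂ ∧ p₁.coeff.support ⊆ A ∧
      p₂.coeff.support ⊆ A ∧
      ∀ q₁ q₂ : AddMonoidAlgebra ℝ G, Law q₁ → Law q₂ → q₁.coeff.support ⊆ A →
        q₂.coeff.support ⊆ A → FF η p₁ p₂ ≤ FF η q₁ q₂ + δ := by
  set V : Set ℝ := {v | ∃ q₁ q₂ : AddMonoidAlgebra ℝ G, Law q₁ ∧ Law q₂ ∧ q₁.coeff.support ⊆ A ∧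
    q₂.coeff.support ⊆ A ∧ v = FF η q₁ q₂} with hV
  have hne : V.Nonempty :=
    ⟨FF η (U A) (U A), U A, U A, law_U hA, law_U hA, support_unif, support_unif, rfl⟩
  have hbdd : BddBelow V := by
    refine ⟨-((1 + η) / 2 * (Real.log A.card + Real.log A.card)), ?_⟩
    rintro v ⟨q₁, q₂, h1, h2, h3, h4, rfl⟩
    have e1 : 0 ≤ H (q₁ * q₂) := ent_nonneg (h1.mul h2)
    have e2 : H q₁ ≤ Real.log A.card := ent_le_log_card h1 h3
    have e3 : H q₂ ≤ Real.log A.card := ent_le_log_card h2 h4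
    have e4 : (1 + η) / 2 * (H q₁ + H q₂) ≤
        (1 + η) / 2 * (Real.log A.card + Real.log A.card) :=
      mul_le_mul_of_nonneg_left (by linarith) (by linarith)
    unfold FF
    linarith
  obtain ⟨v, ⟨p₁, p₂, h1, h2, h3, h4, rfl⟩, hv⟩ :=
    exists_lt_of_csInf_lt hne (lt_add_of_pos_right (sInf V) hδ)
  refine ⟨p₁, p₂, h1, h2, h3, h4, ?_⟩
  intro q₁ q₂ g1 g2 g3 g4
  have := csInf_le hbdd (show FF η q₁ q₂ ∈ V from ⟨q₁, q₂, g1, g2, g3, g4, rfl⟩)
  linarith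

/-- key inequality: adding a near-minimising pair does not increase the doubling much. -/
theorem key_ineq {A : Finset G} {η δ : ℝ} (hη : 0 ≤ η) {p₁ p₂ b₁ b₂ : AddMonoidAlgebra ℝ G}
    (hp₁ : Law p₁) (hp₂ : Law p₂) (hs₁ : p₁.coeff.support ⊆ A) (hs₂ : p₂.coeff.support ⊆ A)
    (hmin : ∀ q₁ q₂ : AddMonoidAlgebra ℝ G, Law q₁ → Law q₂ → q₁.coeff.support ⊆ A →
        q₂.coeff.support ⊆ A → FF η p₁ p₂ ≤ FF η q₁ q₂ + δ)
    (hb₁ : Law b₁) (hb₂ : Law b₂) :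
    H ((p₁ * b₁) * (p₂ * b₂)) - (H (p₁ * b₁) + H (p₂ * b₂)) / 2 ≤
      H (b₁ * b₂) - (H b₁ + H b₂) / 2 + δ +
        η / 2 * ((H (p₁ * b₁) - H b₁) + (H (p₂ * b₂) - H b₂)) := by
  have hf := fibring hp₁ hp₂ hb₁ hb₂
  have ht1 : IsLaw (p₁ * b₁).coeff := hp₁.mul hb₁
  have ht2 : IsLaw (p₂ * b₂).coeff := hp₂.mul hb₂
  have hx1 := sum_H_tilt hp₁ hb₁
  have hx2 := sum_H_tilt hp₂ hb₂
  have h11 := ht1.2
  have h21 := ht2.2
  simp only [Finsupp.sum] at hf hx1 hx2 h11 h21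
  set c : ℝ := FF η p₁ p₂ - δ with hc
  have hlow : ∑ s ∈ (p₁ * b₁).coeff.support, ∑ s' ∈ (p₂ * b₂).coeff.support,
      (p₁ * b₁).coeff s * (p₂ * b₂).coeff s' *
        (c + (1 + η) / 2 * (H (tilt p₁ b₁ s) + H (tilt p₂ b₂ s'))) ≤
      ∑ s ∈ (p₁ * b₁).coeff.support, ∑ s' ∈ (p₂ * b₂).coeff.support,
      (p₁ * b₁).coeff s * (p₂ * b₂).coeff s' * H (tilt p₁ b₁ s * tilt p₂ b₂ s') := by
    refine Finset.sum_le_sum fun s hs => Finset.sum_le_sum fun s' hs' => ?_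
    refine mul_le_mul_of_nonneg_left ?_ (mul_nonneg (ht1.1 s) (ht2.1 s'))
    have := hmin (tilt p₁ b₁ s) (tilt p₂ b₂ s')
      (law_tilt hp₁ hb₁ (Finsupp.mem_support_iff.mp hs))
      (law_tilt hp₂ hb₂ (Finsupp.mem_support_iff.mp hs'))
      ((support_tilt _ _ _).trans hs₁) ((support_tilt _ _ _).trans hs₂)
    rw [hc]
    unfold FF at this ⊢
    linarith
  have hsplit : ∑ s ∈ (p₁ * b₁).coeff.support, ∑ s' ∈ (p₂ * b₂).coeff.support,
      (p₁ * b₁).coeff s * (p₂ * b₂).coeff s' *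
        (c + (1 + η) / 2 * (H (tilt p₁ b₁ s) + H (tilt p₂ b₂ s'))) =
      c + (1 + η) / 2 * ((H p₁ + H b₁ - H (p₁ * b₁)) + (H p₂ + H b₂ - H (p₂ * b₂))) := by
    have e1 : ∀ s ∈ (p₁ * b₁).coeff.support, ∑ s' ∈ (p₂ * b₂).coeff.support,
      (p₁ * b₁).coeff s * (p₂ * b₂).coeff s' *
        (c + (1 + η) / 2 * (H (tilt p₁ b₁ s) + H (tilt p₂ b₂ s'))) =
        (p₁ * b₁).coeff s * (c + (1 + η) / 2 * (H p₂ + H b₂ - H (p₂ * b₂))) +
        (1 + η) / 2 * ((p₁ * b₁).coeff s * H (tilt p₁ b₁ s)) := by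
      intro s _
      have : ∀ s' ∈ (p₂ * b₂).coeff.support, (p₁ * b₁).coeff s * (p₂ * b₂).coeff s' *
        (c + (1 + η) / 2 * (H (tilt p₁ b₁ s) + H (tilt p₂ b₂ s'))) =
        (p₁ * b₁).coeff s * (c + (1 + η) / 2 * H (tilt p₁ b₁ s)) * (p₂ * b₂).coeff s' +
        (p₁ * b₁).coeff s * ((1 + η) / 2) *
          ((p₂ * b₂).coeff s' * H (tilt p₂ b₂ s')) := by
        intro s' _
        ring
      rw [Finset.sum_congr rfl this, Finset.sum_add_distrib, ← Finset.mul_sum, ← Finset.mul_sum,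
        hx2, h21]
      ring
    rw [Finset.sum_congr rfl e1, Finset.sum_add_distrib, ← Finset.sum_mul, ← Finset.mul_sum,
      hx1, h11]
    ring
  rw [hsplit] at hlow
  rw [hc] at hlow
  unfold FF at hlow
  linarith

theorem growth_step {A : Finset G} {η δ : ℝ} (hη : 0 ≤ η) {p₁ p₂ : AddMonoidAlgebra ℝ G}
    (hp₁ : Law p₁) (hp₂ : Law p₂) (hs₁ : p₁.coeff.support ⊆ A) (hs₂ : p₂.coeff.support ⊆ A)
    (hmin : ∀ q₁ q₂ : AddMonoidAlgebra ℝ G, Law q₁ → Law q₂ → q₁.coeff.support ⊆ A →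
        q₂.coeff.support ⊆ A → FF η p₁ p₂ ≤ FF η q₁ q₂ + δ) (m : ℕ) :
    H ((p₁ * p₂) ^ (m + 1) * (p₁ * p₂) ^ (m + 1)) - H ((p₁ * p₂) ^ (m + 1)) ≤
      (H (p₁ * p₂) - (H p₁ + H p₂) / 2) + (2 * (m + 1) - 1) * δ +
        η * (H ((p₁ * p₂) ^ (m + 1)) - (H p₁ + H p₂) / 2) := by
  have hmin' : ∀ q₁ q₂ : AddMonoidAlgebra ℝ G, Law q₁ → Law q₂ → q₁.coeff.support ⊆ A →
        q₂.coeff.support ⊆ A → FF η p₂ p₁ ≤ FF η q₁ q₂ + δ := by
    intro q₁ q₂ h1 h2 h3 h4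
    rw [growth_FF_swap]
    exact hmin q₁ q₂ h1 h2 h3 h4
  have hq : Law (p₁ * p₂) := hp₁.mul hp₂
  induction m with
  | zero =>
    have h := key_ineq hη hp₂ hp₁ hs₂ hs₁ hmin' hp₁ hp₂
    rw [mul_comm p₂ p₁] at h
    simp only [zero_add, pow_one, Nat.cast_zero]
    linarith
  | succ m ih =>
    have hqm : Law ((p₁ * p₂) ^ (m + 1)) := hq.pow _
    have h1 := key_ineq hη hp₁ hp₂ hs₁ hs₂ hmin hqm hqm
    have h2 := key_ineq hη hp₂ hp₁ hs₂ hs₁ hmin' (hp₁.mul hqm) (hp₂.mul hqm)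
    have e1 : p₂ * (p₁ * (p₁ * p₂) ^ (m + 1)) = (p₁ * p₂) ^ (m + 1 + 1) := by ring
    have e2 : p₁ * (p₂ * (p₁ * p₂) ^ (m + 1)) = (p₁ * p₂) ^ (m + 1 + 1) := by ring
    rw [e1, e2] at h2
    push_cast
    linarith

/-- polynomial growth of the near-minimising pair -/
theorem exists_good_pair {A : Finset G} [DecidableEq G] (hA : A.Nonempty) {K : ℝ}
    (hK : ((A + A).card : ℝ) ≤ K * A.card) {J : ℕ} (hJ : 1 ≤ J) :
    ∃ p₁ p₂ : AddMonoidAlgebra ℝ G, Law p₁ ∧ Law p₂ ∧ p₁.coeff.support ⊆ A ∧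
      p₂.coeff.support ⊆ A ∧
      Real.log A.card - 2 * J * Real.log (2 * K) ≤ H p₁ ∧
      Real.log A.card - 2 * J * Real.log (2 * K) ≤ H p₂ ∧
      ∀ j ≤ J, H ((p₁ * p₂) ^ (2 ^ j)) ≤
        (H p₁ + H p₂) / 2 + 6 * (j + 1) * Real.log (2 * K) := by
  have hJ0 : (0 : ℝ) < J := by exact_mod_cast hJ
  have hApos : (0 : ℝ) < A.card := by exact_mod_cast hA.card_pos
  have hAA : (A.card : ℝ) ≤ ((A + A).card : ℝ) := by
    exact_mod_cast Finset.card_le_card_add_left hA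
  have hK1 : 1 ≤ K := by
    by_contra h
    push Not at h
    nlinarith
  have hlogK : 0 ≤ Real.log K := Real.log_nonneg hK1
  have hlog2 : 0 < Real.log 2 := Real.log_pos (by norm_num)
  have hkap : Real.log (2 * K) = Real.log 2 + Real.log K :=
    Real.log_mul (by norm_num) (by linarith)
  set κ : ℝ := Real.log (2 * K) with hκ
  set L : ℝ := Real.log A.card with hL
  set η : ℝ := 1 / J with hη
  have hη0 : 0 ≤ η := by positivity
  set δ : ℝ := Real.log 2 / 2 ^ (J + 2) with hδ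
  have hδ0 : 0 < δ := by positivity
  have hδJ : 2 ^ J * δ = Real.log 2 / 4 := by
    rw [hδ, pow_add]
    field_simp
    norm_num
  have h2J : (1 : ℝ) ≤ 2 ^ J := one_le_pow₀ (by norm_num)
  have hδ2 : δ ≤ Real.log 2 / 4 := by
    rw [← hδJ]
    nlinarith
  obtain ⟨p₁, p₂, h1, h2, h3, h4, hmin⟩ := exists_near_min hA hη0 hδ0
  have e1 : H p₁ ≤ L := ent_le_log_card h1 h3
  have e2 : H p₂ ≤ L := ent_le_log_card h2 h4
  have hUU : H (U A * U A) ≤ Real.log K + L := by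
    have h5 : H (U A * U A) ≤ Real.log (A + A).card :=
      ent_le_log_card ((law_U hA).mul (law_U hA))
        (support_mul_subset support_unif support_unif fun a ha b hb => Finset.add_mem_add ha hb)
    have h6 : Real.log (A + A).card ≤ Real.log (K * A.card) :=
      Real.log_le_log (lt_of_lt_of_le hApos hAA) hK
    rw [Real.log_mul (by linarith) (by linarith)] at h6
    linarith
  have hcmp := hmin (U A) (U A) (law_U hA) (law_U hA) support_unif support_unif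
  have hk0 : H p₁ ≤ H (p₁ * p₂) := H_le_mul h1 h2
  have hk1 : H p₂ ≤ H (p₁ * p₂) := by
    rw [mul_comm]
    exact H_le_mul h2 h1
  have hmain : (H (p₁ * p₂) - (H p₁ + H p₂) / 2) + η / 2 * ((L - H p₁) + (L - H p₂)) ≤ κ := by
    unfold FF at hcmp
    rw [H_U hA] at hcmp
    rw [← hL] at hcmp
    rw [hkap]
    linarith
  have hηJ : η * J = 1 := by
    rw [hη]
    field_simp
  have hb1 : L - H p₁ ≤ 2 * J * κ := by
    have : η / 2 * (L - H p₁) ≤ κ := by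
      have : 0 ≤ η / 2 * (L - H p₂) := mul_nonneg (by linarith) (by linarith)
      linarith
    have h7 : 2 * J * (η / 2 * (L - H p₁)) ≤ 2 * J * κ :=
      mul_le_mul_of_nonneg_left this (by positivity)
    have h8 : 2 * J * (η / 2 * (L - H p₁)) = (η * J) * (L - H p₁) := by ring
    rw [h8, hηJ, one_mul] at h7
    exact h7
  have hb2 : L - H p₂ ≤ 2 * J * κ := by
    have : η / 2 * (L - H p₂) ≤ κ := by
      have : 0 ≤ η / 2 * (L - H p₁) := mul_nonneg (by linarith) (by linarith)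
      linarith
    have h7 : 2 * J * (η / 2 * (L - H p₂)) ≤ 2 * J * κ :=
      mul_le_mul_of_nonneg_left this (by positivity)
    have h8 : 2 * J * (η / 2 * (L - H p₂)) = (η * J) * (L - H p₂) := by ring
    rw [h8, hηJ, one_mul] at h7
    exact h7
  have hkk : H (p₁ * p₂) - (H p₁ + H p₂) / 2 ≤ κ := by
    have i1 : 0 ≤ η / 2 * ((L - H p₁) + (L - H p₂)) := mul_nonneg (by linarith) (by linarith)
    linarith
  have hκ2 : Real.log 2 ≤ κ := by linarith
  refine ⟨p₁, p₂, h1, h2, h3, h4, by linarith, by linarith, ?_⟩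
  -- growth
  have hgrow : ∀ j ≤ J, H ((p₁ * p₂) ^ (2 ^ j)) - (H p₁ + H p₂) / 2 ≤
      2 * κ * (j + 1) * (1 + η) ^ j := by
    intro j
    induction j with
    | zero =>
      intro _
      simp only [pow_zero, pow_one, Nat.cast_zero]
      linarith
    | succ j ih =>
      intro hj
      have ih' := ih (by omega)
      obtain ⟨m, hm⟩ : ∃ m, 2 ^ j = m + 1 := ⟨2 ^ j - 1, by
        have := Nat.one_le_two_pow (n := j)
        omega⟩
      have hs := growth_step hη0 h1 h2 h3 h4 hmin m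
      rw [← hm] at hs
      have hm' : (m : ℝ) + 1 = 2 ^ j := by exact_mod_cast hm.symm
      rw [hm', ← pow_add] at hs
      have hp : 2 ^ j + 2 ^ j = 2 ^ (j + 1) := by ring
      rw [hp] at hs
      have hle : (2 : ℝ) * 2 ^ j ≤ 2 ^ J := by
        have : (2 : ℝ) * 2 ^ j = 2 ^ (j + 1) := by ring
        rw [this]
        exact pow_le_pow_right₀ (by norm_num) hj
      have hd : (2 * 2 ^ j - 1) * δ ≤ κ := by
        have : (2 * 2 ^ j - 1) * δ ≤ 2 ^ J * δ :=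
          mul_le_mul_of_nonneg_right (by linarith) hδ0.le
        rw [hδJ] at this
        linarith
      have hone : (1 : ℝ) ≤ (1 + η) ^ (j + 1) := one_le_pow₀ (by linarith)
      have hmul : (1 + η) * (H ((p₁ * p₂) ^ 2 ^ j) - (H p₁ + H p₂) / 2) ≤
          (1 + η) * (2 * κ * (j + 1) * (1 + η) ^ j) :=
        mul_le_mul_of_nonneg_left ih' (by linarith)
      have hfin : (1 + η) * (2 * κ * (j + 1) * (1 + η) ^ j) + 2 * κ ≤
          2 * κ * ((j + 1 : ℕ) + 1) * (1 + η) ^ (j + 1) := by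
        push_cast
        have h9 : 2 * κ * 1 ≤ 2 * κ * (1 + η) ^ (j + 1) :=
          mul_le_mul_of_nonneg_left hone (by linarith)
        have h10 : 2 * κ * ((j + 1 : ℝ) + 1) * (1 + η) ^ (j + 1) =
            (1 + η) * (2 * κ * (j + 1) * (1 + η) ^ j) + 2 * κ * (1 + η) ^ (j + 1) := by
          rw [pow_succ]
          ring
        rw [h10]
        linarith
      linarith
  intro j hj
  have hg := hgrow j hj
  have hpow : (1 + η) ^ j ≤ 3 := by
    have i1 : (1 + η) ^ j ≤ (1 + η) ^ J := pow_le_pow_right₀ (by linarith) hj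
    have i2 : (1 + η) ^ J ≤ Real.exp 1 := by
      have : 1 + η ≤ Real.exp η := by
        have := Real.add_one_le_exp η
        linarith
      calc (1 + η) ^ J ≤ (Real.exp η) ^ J := pow_le_pow_left₀ (by linarith) this J
        _ = Real.exp 1 := by
          rw [← Real.exp_nat_mul, mul_comm, hηJ]
    have i3 := Real.exp_one_lt_d9
    linarith
  have hκ0 : 0 ≤ κ := by linarith
  have hnn : 0 ≤ 2 * κ * (j + 1) := mul_nonneg (by linarith) (by positivity)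
  have := mul_le_mul_of_nonneg_left hpow hnn
  linarith

end H112
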