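import Pool.Agent.H112R2.Conv
set_option autoImplicit false

/-! Module E4/E5: Kullback-Leibler divergence, Pinsker-type bound, Fano-type inequality. -/

namespace H112

open Finset

variable {G : Type*} [AddCommGroup G]

/-! ### auxiliary lemmas -/

theorem KL_sum_prodLaw {α β : Type*} (p : α →₀ ℝ) (q : β →₀ ℝ) (φ : α × β → ℝ) :
    ((prodLaw p q).sum fun o c => c * φ o) =
      ∑ x ∈ p.support, ∑ z ∈ q.support, p x * q z * φ (x, z) := by
  classical
  rw [← Finset.sum_product', Finsupp.sum]
  apply Finset.sum_subset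
  · intro o ho
    rw [Finsupp.mem_support_iff, prodLaw_apply] at ho
    rw [Finset.mem_product, Finsupp.mem_support_iff, Finsupp.mem_support_iff]
    exact ⟨left_ne_zero_of_mul ho, right_ne_zero_of_mul ho⟩
  · intro o _ ho
    rw [Finsupp.notMem_support_iff, prodLaw_apply] at ho
    rw [prodLaw_apply, ho, zero_mul]

theorem KL_sum_mul (p q : AddMonoidAlgebra ℝ G) (φ : G → ℝ) :
    ((p * q).coeff.sum fun y c => c * φ y) =
      ∑ x ∈ p.coeff.support, ∑ z ∈ q.coeff.support, p.coeff x * q.coeff z * φ (x + z) := by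
  rw [coeff_mul, Finsupp.sum_mapDomain_index (by intro b; simp) (by intro b m₁ m₂; ring)]
  exact KL_sum_prodLaw p.coeff q.coeff (fun o => φ (o.1 + o.2))

theorem KL_elem {a b : ℝ} (ha : 0 ≤ a) (hb : 0 ≤ b) (hab : 0 < a → 0 < b) :
    2 * a - 2 * (Real.sqrt a * Real.sqrt b) ≤ a * (Real.log a - Real.log b) := by
  rcases ha.eq_or_lt with h | h
  · rw [← h]; simp
  · have hb' := hab h
    have hsa := Real.sqrt_pos.2 h
    have hsb := Real.sqrt_pos.2 hb'
    have h1 := Real.log_le_sub_one_of_pos (div_pos hsb hsa)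
    rw [Real.log_div hsb.ne' hsa.ne', Real.log_sqrt hb, Real.log_sqrt ha] at h1
    have h2 : a * (Real.sqrt b / Real.sqrt a) = Real.sqrt a * Real.sqrt b := by
      rw [mul_div_assoc', div_eq_iff hsa.ne']
      have := Real.mul_self_sqrt ha
      calc a * Real.sqrt b = (Real.sqrt a * Real.sqrt a) * Real.sqrt b := by rw [this]
        _ = _ := by ring
    nlinarith

/-- the key estimate for two sub-probability vectors -/
theorem KL_pinsker {α : Type*} (S : Finset α) (a b : α → ℝ) (ha : ∀ y, 0 ≤ a y) (hb : ∀ y, 0 ≤ b y)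
    (hab : ∀ y, 0 < a y → 0 < b y) (hsa : ∑ y ∈ S, a y = 1) (hsb : ∑ y ∈ S, b y ≤ 1) :
    0 ≤ ∑ y ∈ S, a y * (Real.log (a y) - Real.log (b y)) ∧
    ∑ y ∈ S, |a y - b y| ≤ 2 * Real.sqrt (∑ y ∈ S, a y * (Real.log (a y) - Real.log (b y))) := by
  set D := ∑ y ∈ S, a y * (Real.log (a y) - Real.log (b y)) with hD
  have h1 : ∑ y ∈ S, (Real.sqrt (a y) - Real.sqrt (b y)) ^ 2 ≤ D := by
    have h2 : ∑ y ∈ S, (2 * a y - 2 * (Real.sqrt (a y) * Real.sqrt (b y))) ≤ D :=
      Finset.sum_le_sum fun y _ => KL_elem (ha y) (hb y) (hab y)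
    have h3 : ∑ y ∈ S, (Real.sqrt (a y) - Real.sqrt (b y)) ^ 2 =
        ∑ y ∈ S, (2 * a y - 2 * (Real.sqrt (a y) * Real.sqrt (b y))) + ∑ y ∈ S, b y -
          ∑ y ∈ S, a y := by
      rw [← Finset.sum_add_distrib, ← Finset.sum_sub_distrib]
      apply Finset.sum_congr rfl
      intro y _
      have e1 := Real.sq_sqrt (ha y)
      have e2 := Real.sq_sqrt (hb y)
      ring_nf
      rw [e1, e2]
    rw [h3, hsa]
    linarith
  have hD0 : 0 ≤ D := le_trans (Finset.sum_nonneg fun y _ => sq_nonneg _) h1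
  refine ⟨hD0, ?_⟩
  have h4 : (∑ y ∈ S, |a y - b y|) ^ 2 ≤ 4 * D := by
    have h5 : ∑ y ∈ S, |a y - b y| =
        ∑ y ∈ S, |Real.sqrt (a y) - Real.sqrt (b y)| * (Real.sqrt (a y) + Real.sqrt (b y)) := by
      apply Finset.sum_congr rfl
      intro y _
      have e1 := Real.mul_self_sqrt (ha y)
      have e2 := Real.mul_self_sqrt (hb y)
      have e3 : 0 ≤ Real.sqrt (a y) + Real.sqrt (b y) := by positivity
      rw [← abs_of_nonneg e3, ← abs_mul]
      congr 1
      ring_nf
      rw [Real.sq_sqrt (ha y), Real.sq_sqrt (hb y)]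
    rw [h5]
    refine (Finset.sum_mul_sq_le_sq_mul_sq S _ _).trans ?_
    have h6 : ∑ y ∈ S, |Real.sqrt (a y) - Real.sqrt (b y)| ^ 2 ≤ D := by
      simpa only [sq_abs] using h1
    have h7 : ∑ y ∈ S, (Real.sqrt (a y) + Real.sqrt (b y)) ^ 2 ≤ 4 := by
      calc ∑ y ∈ S, (Real.sqrt (a y) + Real.sqrt (b y)) ^ 2 ≤ ∑ y ∈ S, (2 * a y + 2 * b y) := by
            apply Finset.sum_le_sum
            intro y _
            have e1 := Real.sq_sqrt (ha y)
            have e2 := Real.sq_sqrt (hb y)
            nlinarith [sq_nonneg (Real.sqrt (a y) - Real.sqrt (b y))]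
        _ = 2 * ∑ y ∈ S, a y + 2 * ∑ y ∈ S, b y := by
            rw [Finset.sum_add_distrib, Finset.mul_sum, Finset.mul_sum]
        _ ≤ 4 := by rw [hsa]; linarith
    calc _ ≤ D * 4 := by
          apply mul_le_mul h6 h7 (Finset.sum_nonneg fun y _ => sq_nonneg _) hD0
      _ = 4 * D := by ring
  have h8 : 2 * Real.sqrt D = Real.sqrt (4 * D) := by
    rw [Real.sqrt_mul (by norm_num)]
    congr 1
    rw [show (4 : ℝ) = 2 ^ 2 by norm_num, Real.sqrt_sq (by norm_num)]
  rw [h8]
  exact Real.le_sqrt_of_sq_le h4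

/-- `H(X+Y) - H(Y) = E_{x ~ X} KL(x + Y ‖ X + Y)` and the divergence controls the `L¹` distance. -/
theorem kl_decomp {p q : AddMonoidAlgebra ℝ G} (hp : Law p) (hq : Law q) :
    ∃ D : G → ℝ, (∀ x, 0 ≤ D x) ∧
      (p.coeff.sum fun x a => a * D x) = H (p * q) - H q ∧
      ∀ x ∈ p.coeff.support, ∀ s : Finset G,
        ∑ y ∈ s, |q.coeff (y - x) - (p * q).coeff y| ≤ 2 * Real.sqrt (D x) := by
  classical
  have hpq := Law.mul hp hq
  set r := (p * q).coeff with hr
  -- positivity
  have hpos : ∀ x ∈ p.coeff.support, ∀ y, 0 < q.coeff (y - x) → 0 < r y := by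
    intro x hx y hy
    rw [hr, coeff_mul_apply, Finsupp.sum]
    apply Finset.sum_pos'
    · intro i _
      exact mul_nonneg (hp.1 i) (hq.1 _)
    · refine ⟨x, hx, mul_pos ?_ hy⟩
      exact lt_of_le_of_ne (hp.1 x) (Ne.symm (Finsupp.mem_support_iff.1 hx))
  set D : G → ℝ := fun x => if x ∈ p.coeff.support then
    ∑ z ∈ q.coeff.support, q.coeff z * (Real.log (q.coeff z) - Real.log (r (x + z))) else 0 with hD
  -- D as a sum over large sets
  have hDsum : ∀ x ∈ p.coeff.support, ∀ S : Finset G, (q.coeff.support.image (fun z => x + z)) ⊆ S →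
      D x = ∑ y ∈ S, q.coeff (y - x) * (Real.log (q.coeff (y - x)) - Real.log (r y)) := by
    intro x hx S hS
    rw [hD]
    simp only [if_pos hx]
    rw [← Finset.sum_subset hS]
    · rw [Finset.sum_image (by intro a _ b _ h; simpa using h)]
      apply Finset.sum_congr rfl
      intro z _
      rw [add_sub_cancel_left]
    · intro y _ hy
      have : q.coeff (y - x) = 0 := by
        by_contra hne
        apply hy
        rw [Finset.mem_image]
        exact ⟨y - x, Finsupp.mem_support_iff.2 hne, by abel⟩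
      rw [this, zero_mul]
  have hqsum : ∀ x : G, ∀ S : Finset G, (q.coeff.support.image (fun z => x + z)) ⊆ S →
      ∑ y ∈ S, q.coeff (y - x) = 1 := by
    intro x S hS
    rw [← Finset.sum_subset hS, Finset.sum_image (by intro a _ b _ h; simpa using h)]
    · rw [← hq.2, Finsupp.sum]
      apply Finset.sum_congr rfl
      intro z _
      rw [add_sub_cancel_left]
    · intro y _ hy
      by_contra hne
      apply hy
      rw [Finset.mem_image]
      exact ⟨y - x, Finsupp.mem_support_iff.2 hne, by abel⟩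
  have hrsum : ∀ S : Finset G, ∑ y ∈ S, r y ≤ 1 := by
    intro S
    rw [← hpq.2, Finsupp.sum]
    calc ∑ y ∈ S, r y ≤ ∑ y ∈ S ∪ r.support, r y :=
          Finset.sum_le_sum_of_subset_of_nonneg Finset.subset_union_left (fun y _ _ => hpq.1 y)
      _ = ∑ y ∈ r.support, r y := by
          symm
          apply Finset.sum_subset Finset.subset_union_right
          intro y _ hy
          exact Finsupp.notMem_support_iff.1 hy
  have hkey : ∀ x ∈ p.coeff.support, ∀ S : Finset G, (q.coeff.support.image (fun z => x + z)) ⊆ S →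
      0 ≤ D x ∧ ∑ y ∈ S, |q.coeff (y - x) - r y| ≤ 2 * Real.sqrt (D x) := by
    intro x hx S hS
    have := KL_pinsker S (fun y => q.coeff (y - x)) r (fun y => hq.1 _) hpq.1 (hpos x hx)
      (hqsum x S hS) (hrsum S)
    rw [hDsum x hx S hS]
    exact this
  refine ⟨D, ?_, ?_, ?_⟩
  · intro x
    by_cases hx : x ∈ p.coeff.support
    · exact (hkey x hx _ (Finset.Subset.refl _)).1
    · rw [hD]; simp only [if_neg hx]; exact le_rfl
  · have h1 : (p.coeff.sum fun x a => a * D x) =
        ∑ x ∈ p.coeff.support, ∑ z ∈ q.coeff.support,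
          p.coeff x * q.coeff z * (Real.log (q.coeff z) - Real.log (r (x + z))) := by
      rw [Finsupp.sum]
      apply Finset.sum_congr rfl
      intro x hx
      rw [hD]
      simp only [if_pos hx]
      rw [Finset.mul_sum]
      apply Finset.sum_congr rfl
      intro z _
      ring
    have h2 : ∑ x ∈ p.coeff.support, ∑ z ∈ q.coeff.support,
          p.coeff x * q.coeff z * (Real.log (q.coeff z) - Real.log (r (x + z))) =
        (∑ x ∈ p.coeff.support, p.coeff x) *
          (∑ z ∈ q.coeff.support, q.coeff z * Real.log (q.coeff z)) -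
        ∑ x ∈ p.coeff.support, ∑ z ∈ q.coeff.support,
          p.coeff x * q.coeff z * Real.log (r (x + z)) := by
      rw [Finset.sum_mul_sum, ← Finset.sum_sub_distrib]
      apply Finset.sum_congr rfl
      intro x _
      rw [← Finset.sum_sub_distrib]
      apply Finset.sum_congr rfl
      intro z _
      ring
    rw [h1, h2, ← KL_sum_mul p q (fun y => Real.log ((p * q).coeff y))]
    have h3 : ∑ x ∈ p.coeff.support, p.coeff x = 1 := hp.2
    rw [h3]
    unfold H ent Finsupp.sum
    simp only [Real.negMulLog]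
    rw [← hr, one_mul]
    have h4 : ∀ (f : G →₀ ℝ), ∑ a ∈ f.support, -f a * Real.log (f a) =
        -∑ a ∈ f.support, f a * Real.log (f a) := by
      intro f
      rw [← Finset.sum_neg_distrib]
      apply Finset.sum_congr rfl
      intro a _
      ring
    rw [h4, h4]
    ring
  · intro x hx s
    refine le_trans ?_ (hkey x hx (s ∪ q.coeff.support.image (fun z => x + z))
      Finset.subset_union_right).2
    exact Finset.sum_le_sum_of_subset_of_nonneg Finset.subset_union_left
      (fun y _ _ => abs_nonneg _)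

theorem KL_negMulLog_sum {α : Type*} (E : Finset α) (p : α → ℝ) (hp : ∀ x, 0 ≤ p x) :
    ∑ x ∈ E, Real.negMulLog (p x) ≤
      (∑ x ∈ E, p x) * Real.log E.card + Real.negMulLog (∑ x ∈ E, p x) := by
  set P := ∑ x ∈ E, p x with hP
  have hP0 : 0 ≤ P := Finset.sum_nonneg fun x _ => hp x
  rcases hP0.eq_or_lt with h | h
  · rw [← h]
    simp only [zero_mul, Real.negMulLog_zero, add_zero]
    apply Finset.sum_nonpos
    intro x hx
    have : p x = 0 := (Finset.sum_eq_zero_iff_of_nonneg (fun x _ => hp x)).1 (hP ▸ h.symm) x hx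
    rw [this, Real.negMulLog_zero]
  · have hE : E.Nonempty := by
      by_contra hne
      rw [Finset.not_nonempty_iff_eq_empty] at hne
      rw [hP, hne, Finset.sum_empty] at h
      exact lt_irrefl _ h
    have hc : (0 : ℝ) < E.card := by exact_mod_cast hE.card_pos
    have h1 : ∀ x ∈ E, Real.negMulLog (p x) ≤
        p x * (Real.log E.card - Real.log P) + (P / E.card - p x) := by
      intro x _
      rcases (hp x).eq_or_lt with h0 | h0
      · rw [← h0]; simp; positivity
      · have h2 := Real.log_le_sub_one_of_pos (div_pos (div_pos h hc) h0)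
        rw [Real.log_div (div_pos h hc).ne' h0.ne', Real.log_div h.ne' hc.ne'] at h2
        have h3 : p x * (P / E.card / p x - 1) = P / E.card - p x := by
          field_simp
        have h4 := mul_le_mul_of_nonneg_left h2 h0.le
        rw [h3] at h4
        unfold Real.negMulLog
        nlinarith
    refine (Finset.sum_le_sum h1).trans (le_of_eq ?_)
    rw [Finset.sum_add_distrib, ← Finset.sum_mul, Finset.sum_sub_distrib, Finset.sum_const,
      nsmul_eq_mul, mul_div_cancel₀ _ hc.ne', ← hP]
    unfold Real.negMulLog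
    ring

/-- Fano-type inequality. -/
theorem fano {α : Type*} {p : α →₀ ℝ} (hp : IsLaw p) {A E : Finset α} (hA : p.support ⊆ A)
    (hE : E ⊆ A) {D : ℝ} (hD : Real.log A.card - D ≤ ent p) (hPE : 3 / 4 ≤ ∑ x ∈ E, p x) :
    (A.card : ℝ) * Real.exp (-(2 * D + 1)) ≤ E.card := by
  classical
  have hEne : E.Nonempty := by
    by_contra hne
    rw [Finset.not_nonempty_iff_eq_empty] at hne
    rw [hne, Finset.sum_empty] at hPE
    norm_num at hPE
  have hAne : A.Nonempty := hEne.mono hE
  have hEc : (0 : ℝ) < E.card := by exact_mod_cast hEne.card_pos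
  have hAc : (0 : ℝ) < A.card := by exact_mod_cast hAne.card_pos
  have hEA : (E.card : ℝ) ≤ A.card := by exact_mod_cast Finset.card_le_card hE
  have hlogEA : Real.log E.card ≤ Real.log A.card := Real.log_le_log hEc hEA
  have hent : ent p = ∑ x ∈ A, Real.negMulLog (p x) := by
    unfold ent Finsupp.sum
    apply Finset.sum_subset hA
    intro x _ hx
    change Real.negMulLog (p x) = 0
    rw [Finsupp.notMem_support_iff.1 hx, Real.negMulLog_zero]
  have hsum : ∑ x ∈ A, p x = 1 := by
    rw [← hp.2, Finsupp.sum]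
    symm
    apply Finset.sum_subset hA
    intro x _ hx
    exact Finsupp.notMem_support_iff.1 hx
  set P := ∑ x ∈ E, p x with hP
  have hQ : ∑ x ∈ A \ E, p x = 1 - P := by
    rw [← hsum, ← Finset.sum_sdiff hE]; ring
  have hQ0 : 0 ≤ 1 - P := by
    rw [← hQ]; exact Finset.sum_nonneg fun x _ => hp.1 x
  have h1 := KL_negMulLog_sum E p hp.1
  have h2 := KL_negMulLog_sum (A \ E) p hp.1
  rw [← hP] at h1
  rw [hQ] at h2
  have h3 : ent p ≤ P * Real.log E.card + (1 - P) * Real.log A.card + Real.log 2 := by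
    have h4 := Real.binEntropy_le_log_two (p := P)
    rw [Real.binEntropy_eq_negMulLog_add_negMulLog_one_sub] at h4
    have h5 : (1 - P) * Real.log (A \ E).card ≤ (1 - P) * Real.log A.card := by
      apply mul_le_mul_of_nonneg_left _ hQ0
      rcases Nat.eq_zero_or_pos (A \ E).card with h0 | h0
      · rw [h0, Nat.cast_zero, Real.log_zero]
        exact Real.log_natCast_nonneg _
      · exact Real.log_le_log (by exact_mod_cast h0)
          (by exact_mod_cast Finset.card_le_card Finset.sdiff_subset)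
    rw [hent, ← Finset.sum_sdiff hE]
    linarith
  have hD0 : 0 ≤ D := by
    have := ent_le_log_card hp hA
    linarith
  have h6 : P * (Real.log A.card - Real.log E.card) ≤ Real.log 2 + D := by nlinarith
  have h7 : 3 / 4 * (Real.log A.card - Real.log E.card) ≤ Real.log 2 + D :=
    le_trans (mul_le_mul_of_nonneg_right hPE (by linarith)) h6
  have hl2 := Real.log_two_lt_d9
  have h8 : Real.log A.card - (2 * D + 1) ≤ Real.log E.card := by
    norm_num at hl2
    linarith
  calc (A.card : ℝ) * Real.exp (-(2 * D + 1)) =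
        Real.exp (Real.log A.card - (2 * D + 1)) := by
          rw [sub_eq_add_neg, Real.exp_add, Real.exp_log hAc]
    _ ≤ Real.exp (Real.log E.card) := Real.exp_le_exp.2 h8
    _ = E.card := Real.exp_log hEc

end H112
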