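import Pool.Agent.H112R2.KL
set_option autoImplicit false

/-! Module B: near-invariance of `W_n` under a large subset of `A`. -/

namespace H112

open Finset

variable {G : Type*} [AddCommGroup G]

theorem Near_ee_zero : ee 0 = 1 := by
  unfold ee
  rw [AddCircle.toCircle_zero]
  simp

theorem Near_ee_add (s t : UnitAddCircle) : ee (s + t) = ee s * ee t := by
  unfold ee
  rw [AddCircle.toCircle_add]
  simp

theorem Near_norm_ee (t : UnitAddCircle) : ‖ee t‖ = 1 := by
  unfold ee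
  simp

theorem Near_ee_neg (t : UnitAddCircle) : ee (-t) = (starRingEnd ℂ) (ee t) := by
  unfold ee
  rw [AddCircle.toCircle_neg, Circle.coe_inv_eq_conj]

theorem ft_mul (f g : AddMonoidAlgebra ℝ G) (γ : G →+ UnitAddCircle) :
    ft (f * g) γ = ft f γ * ft g γ := by
  unfold ft
  rw [coeff_mul, Finsupp.sum_mapDomain_index, Conv_sum_prodLaw]
  · simp only [Finsupp.sum]
    rw [Finset.sum_mul_sum]
    refine Finset.sum_congr rfl fun i _ => Finset.sum_congr rfl fun j _ => ?_
    rw [map_add, Near_ee_add]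
    push_cast
    ring
  · intro x; simp
  · intro x; simp
  · intro x a b
    push_cast
    ring

theorem Near_ft_one (γ : G →+ UnitAddCircle) : ft (1 : AddMonoidAlgebra ℝ G) γ = 1 := by
  unfold ft
  rw [AddMonoidAlgebra.one_def, AddMonoidAlgebra.coeff_single, Finsupp.sum_single_index]
  · rw [map_zero, Near_ee_zero]; simp
  · simp

theorem ft_pow (f : AddMonoidAlgebra ℝ G) (γ : G →+ UnitAddCircle) (n : ℕ) :
    ft (f ^ n) γ = ft f γ ^ n := by
  induction n with
  | zero => rw [pow_zero, pow_zero, Near_ft_one]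
  | succ n ih => rw [pow_succ, pow_succ, ft_mul, ih]

theorem ft_refl (f : AddMonoidAlgebra ℝ G) (γ : G →+ UnitAddCircle) :
    ft (refl f) γ = (starRingEnd ℂ) (ft f γ) := by
  unfold ft refl
  rw [AddMonoidAlgebra.coeff_ofCoeff, Finsupp.sum_mapDomain_index]
  · simp only [Finsupp.sum]
    rw [map_sum]
    refine Finset.sum_congr rfl fun i _ => ?_
    rw [map_neg, Near_ee_neg, map_mul, Complex.conj_ofReal]
  · intro x; simp
  · intro x a b
    push_cast
    ring

theorem norm_ft_le {f : AddMonoidAlgebra ℝ G} (hf : Law f) (γ : G →+ UnitAddCircle) :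
    ‖ft f γ‖ ≤ 1 := by
  unfold ft
  refine le_of_le_of_eq ?_ hf.2
  simp only [Finsupp.sum]
  refine (norm_sum_le _ _).trans (Finset.sum_le_sum fun x _ => ?_)
  rw [norm_mul, Near_norm_ee, mul_one, Complex.norm_real, Real.norm_of_nonneg (hf.1 x)]

/-- `4 ‖t‖ ≤ |e(t) - 1|` -/
theorem four_mul_norm_le (t : UnitAddCircle) : 4 * ‖t‖ ≤ ‖ee t - 1‖ := by
  induction t using QuotientAddGroup.induction_on with
  | H x =>
  change 4 * ‖(x : UnitAddCircle)‖ ≤ ‖ee (x : UnitAddCircle) - 1‖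
  set y : ℝ := x - round x with hy
  have hxy : ((x : ℝ) : UnitAddCircle) = ((y : ℝ) : UnitAddCircle) := by
    rw [hy, AddCircle.coe_sub]
    have : (((round x : ℤ) : ℝ) : UnitAddCircle) = 0 := by
      rw [AddCircle.coe_eq_zero_iff]
      exact ⟨round x, by simp⟩
    rw [this, sub_zero]
  have hn : ‖(x : UnitAddCircle)‖ = |y| := UnitAddCircle.norm_eq
  have hy2 : |y| ≤ 1 / 2 := abs_sub_round x
  rw [hn, hxy]
  have h1 : ee ((y : ℝ) : UnitAddCircle) = Complex.exp (Complex.I * ((2 * Real.pi * y : ℝ) : ℂ)) := by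
    unfold ee
    rw [AddCircle.toCircle_apply_mk, Circle.coe_exp]
    congr 1
    push_cast
    ring
  rw [h1, Complex.norm_exp_I_mul_ofReal_sub_one]
  have h2 : (2 * Real.pi * y) / 2 = Real.pi * y := by ring
  rw [h2, Real.norm_eq_abs, abs_mul, abs_of_pos (by norm_num : (0:ℝ) < 2)]
  have h3 : |Real.sin (Real.pi * y)| = Real.sin (Real.pi * |y|) := by
    have h4 : Real.sin (Real.pi * |y|) = |Real.sin (Real.pi * |y|)| := by
      symm
      apply abs_of_nonneg
      apply Real.sin_nonneg_of_nonneg_of_le_pi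
      · positivity
      · nlinarith [Real.pi_pos]
    rw [h4]
    rcases abs_cases y with ⟨h, _⟩ | ⟨h, _⟩
    · rw [h]
    · rw [h, mul_neg, Real.sin_neg, abs_neg]
  rw [h3]
  have h5 : 2 / Real.pi * (Real.pi * |y|) ≤ Real.sin (Real.pi * |y|) := by
    apply Real.mul_le_sin
    · positivity
    · nlinarith [Real.pi_pos]
  have h6 : 2 / Real.pi * (Real.pi * |y|) = 2 * |y| := by
    field_simp
  linarith

/-- the increments `H(X₁ + W_n) - H(W_n)` decrease in `n` -/
theorem increment_le {p₁ p₂ : AddMonoidAlgebra ℝ G} (hp₁ : Law p₁) (hp₂ : Law p₂) (n : ℕ) :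
    n * (H (p₁ * (p₁ * p₂) ^ n) - H ((p₁ * p₂) ^ n)) ≤
      H ((p₁ * p₂) ^ (n + 1)) - H (p₁ * p₂) := by
  have hq := hp₁.mul hp₂
  induction n with
  | zero => simp
  | succ n ih =>
    have h1 : H (p₁ * (p₁ * p₂) ^ (n + 1)) + H ((p₁ * p₂) ^ n) ≤
        H (p₁ * (p₁ * p₂) ^ n) + H ((p₁ * p₂) ^ (n + 1)) := by
      have := H_submod hp₁ (hq.pow n) hq
      rw [mul_assoc, ← pow_succ] at this
      exact this
    have h2 : H (p₁ * (p₁ * p₂) ^ (n + 1)) ≤ H ((p₁ * p₂) ^ (n + 2)) := by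
      have h3 := H_le_mul (hp₁.mul (hq.pow (n + 1))) hp₂
      have h4 : p₁ * (p₁ * p₂) ^ (n + 1) * p₂ = (p₁ * p₂) ^ (n + 2) := by
        rw [pow_succ (p₁ * p₂) (n + 1)]
        ring
      rw [h4] at h3
      exact h3
    have hn : (0 : ℝ) ≤ n := Nat.cast_nonneg n
    push_cast
    have h5 : (n : ℝ) * (H (p₁ * (p₁ * p₂) ^ (n + 1)) - H ((p₁ * p₂) ^ (n + 1))) ≤
        n * (H (p₁ * (p₁ * p₂) ^ n) - H ((p₁ * p₂) ^ n)) := by
      apply mul_le_mul_of_nonneg_left _ hn
      linarith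
    linarith

theorem Near_shift_sum (W : AddMonoidAlgebra ℝ G) (x : G) {s : Finset G} [DecidableEq G]
    (hs : W.coeff.support.image (fun z => z + x) ⊆ s) (γ : G →+ UnitAddCircle) :
    ∑ z ∈ s, (W.coeff (z - x) : ℂ) * ee (γ z) = ee (γ x) * ft W γ := by
  have h1 : ∑ z ∈ s, (W.coeff (z - x) : ℂ) * ee (γ z) =
      ∑ z ∈ W.coeff.support.image (fun z => z + x), (W.coeff (z - x) : ℂ) * ee (γ z) := by
    symm
    apply Finset.sum_subset hs
    intro z _ hz
    have : W.coeff (z - x) = 0 := by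
      rw [← Finsupp.notMem_support_iff]
      intro h
      apply hz
      rw [Finset.mem_image]
      exact ⟨z - x, h, by simp⟩
    rw [this]; simp
  rw [h1, Finset.sum_image]
  · unfold ft
    simp only [Finsupp.sum]
    rw [Finset.mul_sum]
    refine Finset.sum_congr rfl fun z _ => ?_
    rw [add_sub_cancel_right, map_add, Near_ee_add]
    ring
  · intro a _ b _ h
    simpa using h

theorem near_invariance {A : Finset G} {p₁ p₂ : AddMonoidAlgebra ℝ G} (hp₁ : Law p₁)
    (hp₂ : Law p₂) (hs₁ : p₁.coeff.support ⊆ A) {n : ℕ} (hn : 1 ≤ n) {D ε : ℝ}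
    (hD : Real.log A.card - D ≤ H p₁)
    (hε : H ((p₁ * p₂) ^ (n + 1)) - H (p₁ * p₂) ≤ n * ε) :
    ∃ E ⊆ A, (A.card : ℝ) * Real.exp (-(2 * D + 1)) ≤ E.card ∧
      ∀ x ∈ E, ∀ y ∈ E, ∀ γ : G →+ UnitAddCircle, 1 / 2 ≤ ‖ft ((p₁ * p₂) ^ n) γ‖ →
        ‖γ (x - y)‖ ≤ 4 * Real.sqrt ε := by
  classical
  set W : AddMonoidAlgebra ℝ G := (p₁ * p₂) ^ n with hW
  have hWl : Law W := (hp₁.mul hp₂).pow n
  obtain ⟨D', hD0, hDs, hDb⟩ := kl_decomp hp₁ hWl
  have hinc : H (p₁ * W) - H W ≤ ε := by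
    have h1 := (increment_le hp₁ hp₂ n).trans hε
    have h2 : (0 : ℝ) < n := by exact_mod_cast hn
    exact le_of_mul_le_mul_left h1 h2
  simp only [Finsupp.sum] at hDs
  have hε0 : 0 ≤ ε := by
    refine le_trans ?_ hinc
    rw [← hDs]
    exact Finset.sum_nonneg fun x _ => mul_nonneg (hp₁.1 x) (hD0 x)
  set E : Finset G := p₁.coeff.support.filter (fun x => D' x ≤ 4 * ε) with hE
  have hEA : E ⊆ A := (Finset.filter_subset _ _).trans hs₁
  have hPE : 3 / 4 ≤ ∑ x ∈ E, p₁.coeff x := by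
    have htot : ∑ x ∈ p₁.coeff.support, p₁.coeff x = 1 := hp₁.2
    have hsplit := Finset.sum_filter_add_sum_filter_not p₁.coeff.support
      (fun x => D' x ≤ 4 * ε) (fun x => p₁.coeff x)
    have hcompl : ∑ x ∈ p₁.coeff.support.filter (fun x => ¬ D' x ≤ 4 * ε), p₁.coeff x ≤ 1 / 4 := by
      rcases hε0.eq_or_lt with h0 | hpos
      · -- ε = 0
        have hz : ∀ x ∈ p₁.coeff.support, p₁.coeff x * D' x = 0 := by
          have hsum0 : ∑ x ∈ p₁.coeff.support, p₁.coeff x * D' x = 0 := by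
            apply le_antisymm
            · rw [hDs]; rw [h0]; exact hinc
            · exact Finset.sum_nonneg fun x _ => mul_nonneg (hp₁.1 x) (hD0 x)
          exact (Finset.sum_eq_zero_iff_of_nonneg
            (fun x _ => mul_nonneg (hp₁.1 x) (hD0 x))).mp hsum0
        have hempty : p₁.coeff.support.filter (fun x => ¬ D' x ≤ 4 * ε) = ∅ := by
          rw [Finset.filter_eq_empty_iff]
          intro x hx
          rw [not_not]
          have h1 := hz x hx
          rw [Finsupp.mem_support_iff] at hx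
          rcases mul_eq_zero.mp h1 with h2 | h2
          · exact absurd h2 hx
          · rw [h2]; linarith
        rw [hempty]; simp
      · have h1 : ∑ x ∈ p₁.coeff.support.filter (fun x => ¬ D' x ≤ 4 * ε), p₁.coeff x * (4 * ε) ≤
            ∑ x ∈ p₁.coeff.support, p₁.coeff x * D' x := by
          refine le_trans (Finset.sum_le_sum (g := fun x => p₁.coeff x * D' x) ?_) ?_
          · intro x hx
            rw [Finset.mem_filter, not_le] at hx
            exact mul_le_mul_of_nonneg_left hx.2.le (hp₁.1 x)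
          · exact Finset.sum_le_sum_of_subset_of_nonneg (Finset.filter_subset _ _)
              fun x _ _ => mul_nonneg (hp₁.1 x) (hD0 x)
        rw [← Finset.sum_mul, hDs] at h1
        have h2 : (∑ x ∈ p₁.coeff.support.filter (fun x => ¬ D' x ≤ 4 * ε), p₁.coeff x) * (4 * ε)
            ≤ (1 / 4) * (4 * ε) := by
          linarith
        exact le_of_mul_le_mul_right h2 (by linarith)
    rw [htot] at hsplit
    linarith
  refine ⟨E, hEA, fano hp₁ hs₁ hEA hD hPE, ?_⟩
  intro x hx y hy γ hγ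
  have hsq : ∀ z ∈ E, 2 * Real.sqrt (D' z) ≤ 4 * Real.sqrt ε := by
    intro z hz
    rw [hE, Finset.mem_filter] at hz
    have h1 : Real.sqrt (D' z) ≤ Real.sqrt (4 * ε) := Real.sqrt_le_sqrt hz.2
    have h2 : Real.sqrt (4 * ε) = 2 * Real.sqrt ε := by
      rw [Real.sqrt_mul (by norm_num : (0:ℝ) ≤ 4)]
      have : Real.sqrt 4 = 2 := by
        rw [show (4:ℝ) = 2 ^ 2 by norm_num]
        exact Real.sqrt_sq (by norm_num)
      rw [this]
    linarith
  have hxs : x ∈ p₁.coeff.support := (Finset.mem_filter.mp hx).1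
  have hys : y ∈ p₁.coeff.support := (Finset.mem_filter.mp hy).1
  set s : Finset G := W.coeff.support.image (fun z => z + x) ∪
    W.coeff.support.image (fun z => z + y) with hs
  have hdx := (hDb x hxs s).trans (hsq x hx)
  have hdy := (hDb y hys s).trans (hsq y hy)
  have hsum : ∑ z ∈ s, |W.coeff (z - x) - W.coeff (z - y)| ≤ 8 * Real.sqrt ε := by
    have h1 : ∀ z ∈ s, |W.coeff (z - x) - W.coeff (z - y)| ≤
        |W.coeff (z - x) - (p₁ * W).coeff z| + |W.coeff (z - y) - (p₁ * W).coeff z| := by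
      intro z _
      have := abs_sub_le (W.coeff (z - x)) ((p₁ * W).coeff z) (W.coeff (z - y))
      rw [abs_sub_comm ((p₁ * W).coeff z)] at this
      exact this
    refine (Finset.sum_le_sum h1).trans ?_
    rw [Finset.sum_add_distrib]
    linarith
  have hft : (ee (γ x) - ee (γ y)) * ft W γ =
      ∑ z ∈ s, ((W.coeff (z - x) - W.coeff (z - y) : ℝ) : ℂ) * ee (γ z) := by
    have h1 := Near_shift_sum W x (s := s) Finset.subset_union_left γ
    have h2 := Near_shift_sum W y (s := s) Finset.subset_union_right γ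
    rw [sub_mul, ← h1, ← h2, ← Finset.sum_sub_distrib]
    refine Finset.sum_congr rfl fun z _ => ?_
    push_cast
    ring
  have hbound : ‖ee (γ x) - ee (γ y)‖ * ‖ft W γ‖ ≤ 8 * Real.sqrt ε := by
    rw [← norm_mul, hft]
    refine (norm_sum_le _ _).trans (le_trans (le_of_eq ?_) hsum)
    refine Finset.sum_congr rfl fun z _ => ?_
    rw [norm_mul, Near_norm_ee, mul_one, Complex.norm_real, Real.norm_eq_abs]
  have h3 : ‖ee (γ (x - y)) - 1‖ = ‖ee (γ x) - ee (γ y)‖ := by
    have h4 : ee (γ x) - ee (γ y) = (ee (γ (x - y)) - 1) * ee (γ y) := by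
      rw [sub_mul, one_mul, ← Near_ee_add, ← map_add, sub_add_cancel]
    rw [h4, norm_mul, Near_norm_ee, mul_one]
  have h5 := four_mul_norm_le (γ (x - y))
  rw [h3] at h5
  have h6 : ‖ee (γ x) - ee (γ y)‖ * (1 / 2) ≤ 8 * Real.sqrt ε :=
    le_trans (mul_le_mul_of_nonneg_left hγ (norm_nonneg _)) hbound
  linarith

end H112
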