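import Pool.Agent.H112R2.Defs
set_option autoImplicit false

/-! Module E1: Shannon entropy of finitely supported laws. -/

namespace H112

open Finset

variable {α β γ Ω : Type*}

theorem IsLaw.le_one {p : α →₀ ℝ} (hp : IsLaw p) (x : α) : p x ≤ 1 := by
  by_cases hx : x ∈ p.support
  · rw [← hp.2]
    exact Finset.single_le_sum (f := fun y => p y) (fun y _ => hp.1 y) hx
  · rw [Finsupp.notMem_support_iff.mp hx]; exact zero_le_one

theorem IsLaw.ne_zero {p : α →₀ ℝ} (hp : IsLaw p) : p.support.Nonempty := by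
  by_contra h
  rw [Finset.not_nonempty_iff_eq_empty, Finsupp.support_eq_empty] at h
  have := hp.2
  rw [h] at this
  simp at this

theorem IsLaw.sum_eq {p : α →₀ ℝ} (hp : IsLaw p) : ∑ x ∈ p.support, p x = 1 := hp.2

theorem IsLaw.pos {p : α →₀ ℝ} (hp : IsLaw p) {x : α} (hx : x ∈ p.support) : 0 < p x :=
  lt_of_le_of_ne (hp.1 x) (Ne.symm (Finsupp.mem_support_iff.mp hx))

open scoped Classical in
theorem shannon_mapDomain_apply (p : α →₀ ℝ) (f : α → β) (y : β) :
    p.mapDomain f y = ∑ x ∈ p.support, if f x = y then p x else 0 := by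
  rw [Finsupp.mapDomain, Finsupp.sum_apply, Finsupp.sum]
  refine Finset.sum_congr rfl fun x _ => ?_
  rw [Finsupp.single_apply]

theorem isLaw_mapDomain {p : α →₀ ℝ} (hp : IsLaw p) (f : α → β) : IsLaw (p.mapDomain f) := by
  classical
  constructor
  · intro y
    rw [shannon_mapDomain_apply]
    refine Finset.sum_nonneg fun x _ => ?_
    split_ifs
    · exact hp.1 x
    · exact le_rfl
  · rw [Finsupp.sum_mapDomain_index]
    · exact hp.2
    · intro _; rfl
    · intro _ _ _; rfl

theorem shannon_prodLaw_sum (p : α →₀ ℝ) (q : β →₀ ℝ) (h : α × β → ℝ → ℝ)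
    (h0 : ∀ x, h x 0 = 0) :
    (prodLaw p q).sum h = ∑ x ∈ p.support, ∑ y ∈ q.support, h (x, y) (p x * q y) := by
  classical
  rw [prodLaw, Finsupp.onFinset_sum _ h0, Finset.sum_product]

theorem isLaw_prodLaw {p : α →₀ ℝ} {q : β →₀ ℝ} (hp : IsLaw p) (hq : IsLaw q) :
    IsLaw (prodLaw p q) := by
  constructor
  · intro x
    rw [prodLaw_apply]
    exact mul_nonneg (hp.1 _) (hq.1 _)
  · rw [shannon_prodLaw_sum _ _ _ (fun _ => rfl)]
    simp only [← Finset.mul_sum, hq.sum_eq, mul_one, hp.sum_eq]

theorem shannon_unif_sum {A : Finset α} (h : α → ℝ → ℝ) (h0 : ∀ x, h x 0 = 0) :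
    (unif A).sum h = ∑ x ∈ A, h x ((A.card : ℝ)⁻¹) := by
  classical
  rw [unif, Finsupp.onFinset_sum _ h0]
  refine Finset.sum_congr rfl fun x hx => ?_
  rw [if_pos hx]

theorem isLaw_unif {A : Finset α} (hA : A.Nonempty) : IsLaw (unif A) := by
  classical
  constructor
  · intro x
    change 0 ≤ (if x ∈ A then (A.card : ℝ)⁻¹ else 0)
    split_ifs
    · positivity
    · exact le_rfl
  · rw [shannon_unif_sum _ (fun _ => rfl), Finset.sum_const, nsmul_eq_mul]
    have : (A.card : ℝ) ≠ 0 := by
      rw [Nat.cast_ne_zero]; exact hA.card_pos.ne'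
    exact mul_inv_cancel₀ this

theorem support_unif {A : Finset α} : (unif A).support ⊆ A := by
  classical
  rw [unif]
  exact Finsupp.support_onFinset_subset

theorem ent_unif {A : Finset α} (hA : A.Nonempty) : ent (unif A) = Real.log A.card := by
  have h1 : (A.card : ℝ) ≠ 0 := by
    rw [Nat.cast_ne_zero]; exact hA.card_pos.ne'
  rw [ent, shannon_unif_sum _ (fun _ => Real.negMulLog_zero), Finset.sum_const, nsmul_eq_mul,
    Real.negMulLog, Real.log_inv]
  field_simp

theorem ent_nonneg {p : α →₀ ℝ} (hp : IsLaw p) : 0 ≤ ent p := by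
  unfold ent
  exact Finset.sum_nonneg fun x _ => Real.negMulLog_nonneg (hp.1 x) (hp.le_one x)

theorem shannon_ent_eq (p : α →₀ ℝ) : ent p = ∑ x ∈ p.support, p x * (-Real.log (p x)) := by
  unfold ent Finsupp.sum
  refine Finset.sum_congr rfl fun x _ => ?_
  simp only [Real.negMulLog]; ring

theorem ent_le_log_card {p : α →₀ ℝ} (hp : IsLaw p) {s : Finset α} (hs : p.support ⊆ s) :
    ent p ≤ Real.log s.card := by
  have hN : 0 < (s.card : ℝ) := by
    rw [Nat.cast_pos]; exact (hp.ne_zero.mono hs).card_pos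
  have h1 : ent p - Real.log s.card = ∑ x ∈ p.support, p x * Real.log (1 / (s.card * p x)) := by
    rw [shannon_ent_eq]
    have : Real.log s.card = ∑ x ∈ p.support, p x * Real.log s.card := by
      rw [← Finset.sum_mul, hp.sum_eq, one_mul]
    rw [this, ← Finset.sum_sub_distrib]
    refine Finset.sum_congr rfl fun x hx => ?_
    rw [one_div, Real.log_inv, Real.log_mul hN.ne' (hp.pos hx).ne']
    ring
  have h2 : ∑ x ∈ p.support, p x * Real.log (1 / (s.card * p x)) ≤
      ∑ x ∈ p.support, ((s.card : ℝ)⁻¹ - p x) := by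
    refine Finset.sum_le_sum fun x hx => ?_
    have hpx := hp.pos hx
    have := Real.log_le_sub_one_of_pos (x := 1 / (s.card * p x)) (by positivity)
    calc p x * Real.log (1 / (s.card * p x)) ≤ p x * (1 / (s.card * p x) - 1) :=
          mul_le_mul_of_nonneg_left this hpx.le
      _ = (s.card : ℝ)⁻¹ - p x := by field_simp
  rw [Finset.sum_sub_distrib, hp.sum_eq, Finset.sum_const, nsmul_eq_mul] at h2
  have h3 : (p.support.card : ℝ) * (s.card : ℝ)⁻¹ ≤ 1 := by
    rw [← div_eq_mul_inv, div_le_one hN]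
    exact_mod_cast Finset.card_le_card hs
  linarith

/-- `H(X) ≥ -log max p`. -/
theorem neg_log_le_ent {p : α →₀ ℝ} (hp : IsLaw p) {M : ℝ} (hM : ∀ x, p x ≤ M) :
    -Real.log M ≤ ent p := by
  rw [shannon_ent_eq]
  have : -Real.log M = ∑ x ∈ p.support, p x * (-Real.log M) := by
    rw [← Finset.sum_mul, hp.sum_eq, one_mul]
  rw [this]
  refine Finset.sum_le_sum fun x hx => ?_
  refine mul_le_mul_of_nonneg_left ?_ (hp.1 x)
  exact neg_le_neg (Real.log_le_log (hp.pos hx) (hM x))

/-- general formula -/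
theorem shannon_ent_mapDomain (w : Ω →₀ ℝ) (X : Ω → α) :
    ent (w.mapDomain X) = ∑ o ∈ w.support, w o * (-Real.log (w.mapDomain X (X o))) := by
  have h1 : ent (w.mapDomain X) =
      (w.mapDomain X).sum (fun y a => a * (-Real.log (w.mapDomain X y))) := by
    rw [shannon_ent_eq]; rfl
  rw [h1, Finsupp.sum_mapDomain_index]
  · rfl
  · intro b; rw [zero_mul]
  · intro b m n; rw [add_mul]

theorem shannon_le_mapDomain {p : α →₀ ℝ} (hp : IsLaw p) (f : α → β) {x : α}
    (hx : x ∈ p.support) : p x ≤ p.mapDomain f (f x) := by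
  classical
  rw [shannon_mapDomain_apply]
  have := Finset.single_le_sum (s := p.support) (f := fun y => if f y = f x then p y else 0)
    (fun y _ => by
      change 0 ≤ (if f y = f x then p y else 0)
      split_ifs
      · exact hp.1 y
      · exact le_rfl) hx
  simpa using this

theorem ent_mapDomain_of_injOn {p : α →₀ ℝ} (f : α → β) (hf : Set.InjOn f p.support) :
    ent (p.mapDomain f) = ent p := by
  classical
  rw [shannon_ent_mapDomain, shannon_ent_eq]
  refine Finset.sum_congr rfl fun x hx => ?_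
  have : p.mapDomain f (f x) = p x := by
    rw [shannon_mapDomain_apply, Finset.sum_eq_single x]
    · rw [if_pos rfl]
    · intro y hy hyx
      rw [if_neg]
      intro h
      exact hyx (hf hy hx h)
    · intro h; exact absurd hx h
  rw [this]

theorem ent_mapDomain_le {p : α →₀ ℝ} (hp : IsLaw p) (f : α → β) :
    ent (p.mapDomain f) ≤ ent p := by
  rw [shannon_ent_mapDomain, shannon_ent_eq]
  refine Finset.sum_le_sum fun x hx => ?_
  refine mul_le_mul_of_nonneg_left ?_ (hp.1 x)
  exact neg_le_neg (Real.log_le_log (hp.pos hx) (shannon_le_mapDomain hp f hx))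

theorem ent_prodLaw {p : α →₀ ℝ} {q : β →₀ ℝ} (hp : IsLaw p) (hq : IsLaw q) :
    ent (prodLaw p q) = ent p + ent q := by
  rw [ent, shannon_prodLaw_sum _ _ _ (fun _ => Real.negMulLog_zero)]
  have : ∀ x y, Real.negMulLog (p x * q y) = Real.negMulLog (p x) * q y
      + p x * Real.negMulLog (q y) := by
    intro x y
    rw [Real.negMulLog_mul]; ring
  simp only [this, Finset.sum_add_distrib, ← Finset.mul_sum, hq.sum_eq, mul_one]
  rw [← Finset.sum_mul, hp.sum_eq, one_mul]
  rfl

open scoped Classical in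
theorem shannon_marginal (w : Ω →₀ ℝ) (X : Ω → α) (Z : Ω → γ) (z : γ) :
    ∑ x ∈ w.support.image X, (w.mapDomain fun o => (X o, Z o)) (x, z) = w.mapDomain Z z := by
  simp only [shannon_mapDomain_apply]
  rw [Finset.sum_comm]
  refine Finset.sum_congr rfl fun o ho => ?_
  by_cases hz : Z o = z
  · rw [if_pos hz, Finset.sum_eq_single (X o)]
    · rw [if_pos (by rw [hz])]
    · intro x _ hx
      rw [if_neg]
      intro h
      exact hx (Prod.ext_iff.mp h).1.symm
    · intro h
      exact absurd (Finset.mem_image_of_mem X ho) h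
  · rw [if_neg hz]
    refine Finset.sum_eq_zero fun x _ => ?_
    rw [if_neg]
    intro h
    exact hz (Prod.ext_iff.mp h).2

/-- Submodularity: `H(X,Y,Z) + H(Z) ≤ H(X,Z) + H(Y,Z)`. -/
theorem ent_submod {w : Ω →₀ ℝ} (hw : IsLaw w) (X : Ω → α) (Y : Ω → β) (Z : Ω → γ) :
    ent (w.mapDomain fun o => (X o, Y o, Z o)) + ent (w.mapDomain Z) ≤
      ent (w.mapDomain fun o => (X o, Z o)) + ent (w.mapDomain fun o => (Y o, Z o)) := by
  classical
  set PT := w.mapDomain fun o => (X o, Y o, Z o) with hPT
  set PX := w.mapDomain fun o => (X o, Z o) with hPX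
  set PY := w.mapDomain fun o => (Y o, Z o) with hPY
  set PZ := w.mapDomain Z with hPZ
  have hT : IsLaw PT := isLaw_mapDomain hw _
  have hX : IsLaw PX := isLaw_mapDomain hw _
  have hY : IsLaw PY := isLaw_mapDomain hw _
  have hZ : IsLaw PZ := isLaw_mapDomain hw _
  have e1 : ent PT = ∑ o ∈ w.support, w o * (-Real.log (PT (X o, Y o, Z o))) :=
    shannon_ent_mapDomain _ _
  have e2 : ent PX = ∑ o ∈ w.support, w o * (-Real.log (PX (X o, Z o))) :=
    shannon_ent_mapDomain _ _
  have e3 : ent PY = ∑ o ∈ w.support, w o * (-Real.log (PY (Y o, Z o))) :=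
    shannon_ent_mapDomain _ _
  have e4 : ent PZ = ∑ o ∈ w.support, w o * (-Real.log (PZ (Z o))) :=
    shannon_ent_mapDomain _ _
  -- positivity
  have p1 : ∀ o ∈ w.support, 0 < PT (X o, Y o, Z o) := fun o ho =>
    (hw.pos ho).trans_le (shannon_le_mapDomain hw (fun o => (X o, Y o, Z o)) ho)
  have p2 : ∀ o ∈ w.support, 0 < PX (X o, Z o) := fun o ho =>
    (hw.pos ho).trans_le (shannon_le_mapDomain hw (fun o => (X o, Z o)) ho)
  have p3 : ∀ o ∈ w.support, 0 < PY (Y o, Z o) := fun o ho =>
    (hw.pos ho).trans_le (shannon_le_mapDomain hw (fun o => (Y o, Z o)) ho)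
  have p4 : ∀ o ∈ w.support, 0 < PZ (Z o) := fun o ho =>
    (hw.pos ho).trans_le (shannon_le_mapDomain hw Z ho)
  -- the ratio
  set R : α × β × γ → ℝ := fun t => PX (t.1, t.2.2) * PY (t.2.1, t.2.2) / (PT t * PZ t.2.2) with hR
  have h1 : ent PT + ent PZ - ent PX - ent PY ≤ ∑ o ∈ w.support, w o * (R (X o, Y o, Z o) - 1) := by
    rw [e1, e2, e3, e4, ← Finset.sum_add_distrib, ← Finset.sum_sub_distrib,
      ← Finset.sum_sub_distrib]
    refine Finset.sum_le_sum fun o ho => ?_
    have q1 := p1 o ho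
    have q2 := p2 o ho
    have q3 := p3 o ho
    have q4 := p4 o ho
    have hRpos : 0 < R (X o, Y o, Z o) := by
      simp only [hR]
      positivity
    have hlog : Real.log (R (X o, Y o, Z o)) = Real.log (PX (X o, Z o)) + Real.log (PY (Y o, Z o))
        - Real.log (PT (X o, Y o, Z o)) - Real.log (PZ (Z o)) := by
      simp only [hR]
      rw [Real.log_div (mul_pos q2 q3).ne' (mul_pos q1 q4).ne', Real.log_mul q2.ne' q3.ne',
        Real.log_mul q1.ne' q4.ne']
      ring
    have h2 := Real.log_le_sub_one_of_pos hRpos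
    have h3 := mul_le_mul_of_nonneg_left h2 (hw.1 o)
    rw [hlog] at h3
    linarith
  have h2 : ∑ o ∈ w.support, w o * R (X o, Y o, Z o) = ∑ t ∈ PT.support,
      PX (t.1, t.2.2) * PY (t.2.1, t.2.2) / PZ t.2.2 := by
    have : ∑ o ∈ w.support, w o * R (X o, Y o, Z o) = PT.sum (fun t a => a * R t) := by
      rw [hPT, Finsupp.sum_mapDomain_index]
      · rfl
      · intro b; rw [zero_mul]
      · intro b m n; rw [add_mul]
    rw [this, Finsupp.sum]
    refine Finset.sum_congr rfl fun t ht => ?_
    have hpos := hT.pos ht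
    simp only [hR]
    rw [mul_div_assoc', mul_div_mul_left _ _ hpos.ne']
  have h3 : ∑ t ∈ PT.support, PX (t.1, t.2.2) * PY (t.2.1, t.2.2) / PZ t.2.2 ≤ 1 := by
    have hsub : PT.support ⊆ (w.support.image X) ×ˢ ((w.support.image Y) ×ˢ (w.support.image Z)) := by
      intro t ht
      have := Finsupp.mapDomain_support ht
      rw [Finset.mem_image] at this
      obtain ⟨o, ho, rfl⟩ := this
      simp only [Finset.mem_product]
      exact ⟨Finset.mem_image_of_mem _ ho, Finset.mem_image_of_mem _ ho,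
        Finset.mem_image_of_mem _ ho⟩
    refine (Finset.sum_le_sum_of_subset_of_nonneg hsub (fun t _ _ => ?_)).trans ?_
    · exact div_nonneg (mul_nonneg (hX.1 _) (hY.1 _)) (hZ.1 _)
    · rw [Finset.sum_product]
      simp only [Finset.sum_product]
      rw [Finset.sum_comm' (s := w.support.image X) (t := fun _ => w.support.image Y)
        (t' := w.support.image Y) (s' := fun _ => w.support.image X) (by simp [and_comm])]
      have hswap : ∑ y ∈ w.support.image Y, ∑ x ∈ w.support.image X, ∑ z ∈ w.support.image Z,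
          PX (x, z) * PY (y, z) / PZ z = ∑ z ∈ w.support.image Z,
          (∑ x ∈ w.support.image X, PX (x, z)) * (∑ y ∈ w.support.image Y, PY (y, z)) / PZ z := by
        have : ∀ y ∈ w.support.image Y, ∑ x ∈ w.support.image X, ∑ z ∈ w.support.image Z,
            PX (x, z) * PY (y, z) / PZ z = ∑ z ∈ w.support.image Z, ∑ x ∈ w.support.image X,
            PX (x, z) * PY (y, z) / PZ z := fun y _ => Finset.sum_comm
        rw [Finset.sum_congr rfl this, Finset.sum_comm]
        refine Finset.sum_congr rfl fun z _ => ?_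
        rw [Finset.sum_mul_sum, Finset.sum_div, Finset.sum_comm]
        refine Finset.sum_congr rfl fun x _ => ?_
        rw [Finset.sum_div]
      rw [hswap]
      have : ∀ z ∈ w.support.image Z, (∑ x ∈ w.support.image X, PX (x, z)) *
          (∑ y ∈ w.support.image Y, PY (y, z)) / PZ z = PZ z := by
        intro z _
        rw [hPX, hPY, shannon_marginal, shannon_marginal, ← hPZ, mul_self_div_self]
      rw [Finset.sum_congr rfl this]
      rw [← hZ.sum_eq]
      refine (Finset.sum_subset ?_ ?_).ge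
      · exact Finsupp.mapDomain_support
      · intro z _ hz
        exact Finsupp.notMem_support_iff.mp hz
  have h4 : ∑ o ∈ w.support, w o * (R (X o, Y o, Z o) - 1) =
      ∑ o ∈ w.support, w o * R (X o, Y o, Z o) - 1 := by
    simp only [mul_sub, mul_one, Finset.sum_sub_distrib, hw.sum_eq]
  rw [h4, h2] at h1
  linarith

theorem shannon_ent_const {w : Ω →₀ ℝ} (hw : IsLaw w) (c : γ) :
    ent (w.mapDomain fun _ => c) = 0 := by
  classical
  rw [shannon_ent_mapDomain]
  refine Finset.sum_eq_zero fun o _ => ?_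
  have : w.mapDomain (fun _ => c) c = 1 := by
    rw [shannon_mapDomain_apply]
    simp only [if_true]
    exact hw.sum_eq
  rw [this, Real.log_one, neg_zero, mul_zero]

theorem shannon_ent_unit (w : Ω →₀ ℝ) (V : Ω → γ) :
    ent (w.mapDomain fun o => (V o, ())) = ent (w.mapDomain V) := by
  have : (w.mapDomain fun o => (V o, ())) = (w.mapDomain V).mapDomain (fun t => (t, ())) := by
    rw [← Finsupp.mapDomain_comp]; rfl
  rw [this, ent_mapDomain_of_injOn]
  intro a _ b _ hab
  simp only [Prod.mk.injEq, and_true] at hab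
  exact hab

/-- Subadditivity: `H(X,Y) ≤ H(X) + H(Y)`. -/
theorem ent_subadd {w : Ω →₀ ℝ} (hw : IsLaw w) (X : Ω → α) (Y : Ω → β) :
    ent (w.mapDomain fun o => (X o, Y o)) ≤ ent (w.mapDomain X) + ent (w.mapDomain Y) := by
  have h := ent_submod hw X Y (fun _ => ())
  have h0 := shannon_ent_const hw ()
  have h1 : ent (w.mapDomain fun o => (X o, Y o, ())) = ent (w.mapDomain fun o => (X o, Y o)) := by
    have : (w.mapDomain fun o => (X o, Y o, ())) =
        (w.mapDomain fun o => (X o, Y o)).mapDomain (fun t => (t.1, t.2, ())) := by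
      rw [← Finsupp.mapDomain_comp]; rfl
    rw [this, ent_mapDomain_of_injOn]
    intro a _ b _ hab
    simp only [Prod.mk.injEq, and_true] at hab
    exact Prod.ext hab.1 hab.2
  rw [h0, h1, shannon_ent_unit w X, shannon_ent_unit w Y] at h
  linarith

end H112
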